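import Pool.Agent.H94.KM.Comp

/-!
Uniqueness of Stembridge crystals generated by a highest element.
-/

set_option autoImplicit false

namespace Pool.Agent.H94.KM

open Pool.Agent.H59.KY

variable {Y : Cartan}

theorem mor_ext {X X' : Crystal Y} {u : X.B} (hu : Gen X u) (g g' : Mor X X')
    (h : g.map u = g'.map u) : g.map = g'.map := by
  funext b
  obtain ⟨l, hl⟩ := hu.2 b
  have h1 := fword_mor g l u
  have h2 := fword_mor g' l u
  rw [h, h2, hl] at h1
  exact (Option.some.inj h1).symm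

/-- pairs of elements reached by the same word -/
def RR (X X' : Crystal Y) (u : X.B) (u' : X'.B) : ℕ → X.B → X'.B → Prop
  | 0, b, b' => b = u ∧ b' = u'
  | n + 1, b, b' => ∃ i b0 b0', RR X X' u u' n b0 b0' ∧ X.f i b0 = some b ∧ X'.f i b0' = some b'

theorem RR.symm {X X' : Crystal Y} {u : X.B} {u' : X'.B} {n : ℕ} {b : X.B} {b' : X'.B}
    (h : RR X X' u u' n b b') : RR X' X u' u n b' b := by
  induction n generalizing b b' with
  | zero => exact ⟨h.2, h.1⟩
  | succ n ih =>
    obtain ⟨i, b0, b0', h1, h2, h3⟩ := h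
    exact ⟨i, b0', b0, ih h1, h3, h2⟩

theorem RR.wt {X X' : Crystal Y} {u : X.B} {u' : X'.B} (hw : X.wt u = X'.wt u') {n : ℕ} {b : X.B}
    {b' : X'.B} (h : RR X X' u u' n b b') : X.wt b = X'.wt b' := by
  induction n generalizing b b' with
  | zero =>
    obtain ⟨rfl, rfl⟩ := h
    exact hw
  | succ n ih =>
    obtain ⟨i, b0, b0', h1, h2, h3⟩ := h
    have h4 := X.wt_e i _ _ ((X.f_iff i _ _).mp h2)
    have h5 := X'.wt_e i _ _ ((X'.f_iff i _ _).mp h3)
    have h6 := ih h1
    rw [h4, h5] at h6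
    exact add_right_cancel h6

/-- the induction hypothesis: pairs have the same local structure -/
def PP (X X' : Crystal Y) (u : X.B) (u' : X'.B) (n : ℕ) : Prop :=
  ∀ b b', RR X X' u u' n b b' →
    (∀ j, X.eps j b = X'.eps j b' ∧ X.phi j b = X'.phi j b') ∧
    (∀ j c, X.e j b = some c → ∃ m c', n = m + 1 ∧ X'.e j b' = some c' ∧ RR X X' u u' m c c') ∧
    (∀ j c', X'.e j b' = some c' → ∃ m c, n = m + 1 ∧ X.e j b = some c ∧ RR X X' u u' m c c')

theorem PP.symm {X X' : Crystal Y} {u : X.B} {u' : X'.B} {n : ℕ} (h : PP X X' u u' n) :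
    PP X' X u' u n := by
  intro b' b hb
  obtain ⟨h1, h2, h3⟩ := h b b' hb.symm
  refine ⟨fun j => ⟨(h1 j).1.symm, (h1 j).2.symm⟩, ?_, ?_⟩
  · intro j c' hc'
    obtain ⟨m, c, hm, hc, hr⟩ := h3 j c' hc'
    exact ⟨m, c, hm, hc, hr.symm⟩
  · intro j c hc
    obtain ⟨m, c', hm, hc', hr⟩ := h2 j c hc
    exact ⟨m, c', hm, hc', hr.symm⟩

/-- commuting square downwards, from the dual axioms -/
theorem down_sq {X : Crystal Y} (hX : StE (dual X)) {i j : Y.I} (hij : i ≠ j) {w a b z : X.B}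
    (ha : X.f i w = some a) (hb : X.f j w = some b) (h : X.phi j a = X.phi j w)
    (hz : X.f i b = some z) : X.f j a = some z := by
  obtain ⟨v, h1, h2, _⟩ := hX.s5 i j w a b hij ha hb h
  have h3 : X.f i b = some v := h2
  rw [hz] at h3
  rw [Option.some.inj h3]
  exact h1

/-- One step of the induction. -/
theorem half (hY : SL Y) {X X' : Crystal Y} (hX : StE X) (hX' : StE (dual X')) {u : X.B}
    {u' : X'.B} (n : ℕ) (ih : ∀ m ≤ n, PP X X' u u' m) (b : X.B) (b' : X'.B)
    (h : RR X X' u u' (n + 1) b b') (j : Y.I) (c : X.B) (hc : X.e j b = some c) :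
    ∃ c', X'.e j b' = some c' ∧ RR X X' u u' n c c' := by
  obtain ⟨i, b0, b0', h1, h2, h3⟩ := h
  have h4 := (X.f_iff i b0 b).mp h2
  by_cases hij : i = j
  · subst hij
    rw [h4] at hc
    obtain rfl := Option.some.inj hc
    exact ⟨b0', (X'.f_iff i _ _).mp h3, h1⟩
  -- a pair with a given common ancestor
  have key : ∀ m (w : X.B) (w' : X'.B), m ≤ n → RR X X' u u' m w w' → ∀ k v, X.f k w = some v →
      ∃ v', X'.f k w' = some v' ∧ RR X X' u u' (m + 1) v v' := by
    intro m w w' hm hw k v hv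
    have h5 := ((ih m hm w w' hw).1 k).2
    have h6 := X.phi_some k w v hv
    obtain ⟨v', hv'⟩ := f_pos X' k w' (by omega)
    exact ⟨v', hv', k, w, w', hw, hv, hv'⟩
  obtain ⟨i1, i2, i3⟩ := ih n le_rfl b0 b0' h1
  -- square case, ancestor w one step above
  have sq : ∀ w, X.e j b0 = some w → X.e i c = some w →
      (X.phi i w = X.phi i b0 ∨ X.phi j w = X.phi j c) →
      ∃ c', X'.e j b' = some c' ∧ RR X X' u u' n c c' := by
    intro w w1 w2 w3
    obtain ⟨m, w', rfl, h5, h6⟩ := i2 j w w1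
    obtain ⟨c', h7, h8⟩ := key m w w' (by omega) h6 i c ((X.f_iff _ _ _).mpr w2)
    refine ⟨c', ?_, h8⟩
    rw [← X'.f_iff]
    have h9 := (X'.f_iff _ _ _).mpr h5
    have k1 := (ih m (by omega) w w' h6).1
    have k2 := (ih (m + 1) le_rfl c c' h8).1
    rcases w3 with w3 | w3
    · -- f_i w' = c', f_j w' = b0', phi_i b0' = phi_i w'
      obtain ⟨v, q1, q2, _⟩ := hX'.s5 j i w' b0' c' (Ne.symm hij) h9 h7
        (show X'.phi i b0' = X'.phi i w' by rw [← (i1 i).2, ← (k1 i).2, w3])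
      have q3 : X'.f i b0' = some v := q1
      rw [h3] at q3
      rw [Option.some.inj q3]
      exact q2
    · obtain ⟨v, q1, q2, _⟩ := hX'.s5 i j w' c' b0' hij h7 h9
        (show X'.phi j c' = X'.phi j w' by rw [← (k2 j).2, ← (k1 j).2, w3])
      have q3 : X'.f i b0' = some v := q2
      rw [h3] at q3
      rw [Option.some.inj q3]
      exact q1
  rcases s1_cases hY hX hij h4 with k | k | k
  · obtain ⟨w, w1, w2, w3⟩ := hX.s5 i j b b0 c hij h4 hc k.1
    exact sq w w1 w2 (Or.inl w3)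
  · rcases s1_cases hY hX (Ne.symm hij) hc with l | l | l
    · obtain ⟨w, w1, w2, w3⟩ := hX.s5 j i b c b0 (Ne.symm hij) hc h4 l.1
      exact sq w w2 w1 (Or.inr w3)
    · obtain ⟨p, q, r, s, w, m1, m2, m3, m4, m5, m6, m7, m8⟩ :=
        hX.s6 i j b b0 c hij h4 hc k.1 l.1
      obtain ⟨n1, p', rfl, a1, a2⟩ := i2 j p m1
      obtain ⟨n2, q', rfl, a3, a4⟩ := (ih n1 (by omega) p p' a2).2.1 j q m2
      obtain ⟨n3, w', rfl, a5, a6⟩ := (ih n2 (by omega) q q' a4).2.1 i w m3
      obtain ⟨s', b1, b2⟩ := key n3 w w' (by omega) a6 j s ((X.f_iff _ _ _).mpr m6)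
      obtain ⟨r', b3, b4⟩ := key (n3 + 1) s s' (by omega) b2 i r ((X.f_iff _ _ _).mpr m5)
      obtain ⟨c', b5, b6⟩ := key (n3 + 1 + 1) r r' (by omega) b4 i c ((X.f_iff _ _ _).mpr m4)
      refine ⟨c', ?_, b6⟩
      rw [← X'.f_iff]
      have e1 := (ih n3 (by omega) w w' a6).1
      have e2 := (ih (n3 + 1) (by omega) q q' a4).1
      have e3 := (ih (n3 + 1) (by omega) s s' b2).1
      obtain ⟨p1, q1, r1, s1, v, c1, c2, c3, c4, c5, c6, _, _⟩ := hX'.s6 i j w' q' s' hij
        ((X'.f_iff _ _ _).mpr a5) b1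
        (show X'.phi j q' = X'.phi j w' + 1 by rw [← (e2 j).2, ← (e1 j).2, m7])
        (show X'.phi i s' = X'.phi i w' + 1 by rw [← (e3 i).2, ← (e1 i).2, m8])
      have d1 : X'.f j q' = some p' := (X'.f_iff _ _ _).mpr a3
      have d2 : X'.f j p' = some b0' := (X'.f_iff _ _ _).mpr a1
      have c1' : X'.f j q' = some p1 := c1
      rw [d1] at c1'
      obtain rfl := Option.some.inj c1'
      have c2' : X'.f j p' = some q1 := c2
      rw [d2] at c2'
      obtain rfl := Option.some.inj c2'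
      have c3' : X'.f i b0' = some v := c3
      rw [h3] at c3'
      obtain rfl := Option.some.inj c3'
      have c4' : X'.f i s' = some r1 := c4
      rw [b3] at c4'
      obtain rfl := Option.some.inj c4'
      have c5' : X'.f i r' = some s1 := c5
      rw [b5] at c5'
      obtain rfl := Option.some.inj c5'
      exact c6
    · obtain ⟨w, w1, w2, w3⟩ := hX.s5 j i b c b0 (Ne.symm hij) hc h4 l.1
      exact sq w w2 w1 (Or.inr w3)
  · obtain ⟨w, w1, w2, w3⟩ := hX.s5 i j b b0 c hij h4 hc k.1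
    exact sq w w1 w2 (Or.inl w3)

theorem pp_all (hY : SL Y) {X X' : Crystal Y} (hX : St X) (hX' : St X') {u : X.B}
    {u' : X'.B} (hu : ∀ i, X.e i u = none) (hu' : ∀ i, X'.e i u' = none)
    (hw : X.wt u = X'.wt u') (n : ℕ) : PP X X' u u' n := by
  induction n using Nat.strong_induction_on with
  | _ n ih =>
    intro b b' hb
    have hwt := RR.wt hw hb
    have key : (∀ j c, X.e j b = some c → ∃ m c', n = m + 1 ∧ X'.e j b' = some c' ∧
        RR X X' u u' m c c') ∧
        (∀ j c', X'.e j b' = some c' → ∃ m c, n = m + 1 ∧ X.e j b = some c ∧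
        RR X X' u u' m c c') := by
      rcases n with _ | n
      · obtain ⟨rfl, rfl⟩ := hb
        constructor
        · intro j c hc
          rw [hu j] at hc
          exact absurd hc (by simp)
        · intro j c hc
          rw [hu' j] at hc
          exact absurd hc (by simp)
      · constructor
        · intro j c hc
          obtain ⟨c', h1, h2⟩ := half hY hX.1 hX'.2 n (fun m hm => ih m (by omega)) b b' hb j c hc
          exact ⟨n, c', rfl, h1, h2⟩
        · intro j c' hc'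
          obtain ⟨c, h1, h2⟩ := half hY hX'.1 hX.2 n (fun m hm => (ih m (by omega)).symm) b' b
            hb.symm j c' hc'
          exact ⟨n, c, rfl, h1, h2.symm⟩
    refine ⟨?_, key⟩
    intro j
    have heps : X.eps j b = X'.eps j b' := by
      rcases h : X.e j b with _ | c
      · rcases h' : X'.e j b' with _ | c'
        · rw [X.eps_none j b h, X'.eps_none j b' h']
        · obtain ⟨m, c, _, h1, _⟩ := key.2 j c' h'
          rw [h] at h1
          exact absurd h1 (by simp)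
      · obtain ⟨m, c', hm, h1, h2⟩ := key.1 j c h
        have := ((ih m (by omega) c c' h2).1 j).1
        rw [X.eps_some j b c h, X'.eps_some j b' c' h1, this]
    refine ⟨heps, ?_⟩
    have h1 := X.phi_eps j b
    have h2 := X'.phi_eps j b'
    rw [hwt] at h1
    omega

theorem rr_unique {X X' : Crystal Y} {u : X.B} {u' : X'.B}
    (hu : ∀ i, X.e i u = none) (hP : ∀ n, PP X X' u u' n) (n : ℕ) :
    ∀ (m : ℕ) (b : X.B) (b1 b2 : X'.B), RR X X' u u' n b b1 → RR X X' u u' m b b2 → b1 = b2 := by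
  induction n with
  | zero =>
    rintro m b b1 b2 ⟨rfl, rfl⟩ h2
    rcases m with _ | m
    · exact h2.2.symm
    · obtain ⟨i, b0, b0', h3, h4, h5⟩ := h2
      have := (X.f_iff _ _ _).mp h4
      rw [hu i] at this
      exact absurd this (by simp)
  | succ n ih =>
    rintro m b b1 b2 ⟨i, b0, b0', h3, h4, h5⟩ h2
    obtain ⟨m', c', _, h6, h7⟩ := (hP m b b2 h2).2.1 i b0 ((X.f_iff _ _ _).mp h4)
    have h8 := ih m' b0 b0' c' h3 h7
    subst h8
    have h9 := (X'.f_iff _ _ _).mpr h6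
    rw [h5] at h9
    exact Option.some.inj h9

theorem rr_exists {X X' : Crystal Y} {u : X.B} {u' : X'.B} (hP : ∀ n, PP X X' u u' n) (l : List Y.I) :
    ∀ (b : X.B), X.fword l u = some b → ∃ b', RR X X' u u' l.length b b' := by
  induction l with
  | nil =>
    intro b hb
    exact ⟨u', (Option.some.inj hb).symm, rfl⟩
  | cons i l ih =>
    intro b hb
    change (X.fword l u).bind (X.f i) = some b at hb
    rw [Option.bind_eq_some_iff] at hb
    obtain ⟨b0, h1, h2⟩ := hb
    obtain ⟨b0', h3⟩ := ih b0 h1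
    have h4 := ((hP _ b0 b0' h3).1 i).2
    have h5 := X.phi_some i b0 b h2
    obtain ⟨b', hb'⟩ := f_pos X' i b0' (by omega)
    exact ⟨b', i, b0, b0', h3, h2, hb'⟩

theorem St.exists_mor (hY : SL Y) {X X' : Crystal Y} (hX : St X) (hX' : St X') {u : X.B}
    {u' : X'.B} (hu : Gen X u) (hu' : ∀ i, X'.e i u' = none) (hw : X.wt u = X'.wt u') :
    ∃ g : Mor X X', g.map u = u' ∧ Function.Injective g.map := by
  classical
  have hP : ∀ n, PP X X' u u' n := pp_all hY hX hX' hu.1 hu' hw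
  have hex : ∀ b : X.B, ∃ b', ∃ n, RR X X' u u' n b b' := by
    intro b
    obtain ⟨l, hl⟩ := hu.2 b
    obtain ⟨b', hb'⟩ := rr_exists hP l b hl
    exact ⟨b', _, hb'⟩
  choose g hg using hex
  have guniq : ∀ b b' n, RR X X' u u' n b b' → b' = g b := by
    intro b b' n h
    obtain ⟨m, hm⟩ := hg b
    exact rr_unique hu.1 hP n m b b' (g b) h hm
  refine ⟨⟨g, ?_, ?_, ?_⟩, ?_, ?_⟩
  · intro i b
    obtain ⟨n, hn⟩ := hg b
    rcases h : X.e i b with _ | c
    · rcases h' : X'.e i (g b) with _ | c'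
      · rfl
      · obtain ⟨m, c, _, h1, _⟩ := (hP n b (g b) hn).2.2 i c' h'
        rw [h] at h1
        exact absurd h1 (by simp)
    · obtain ⟨m, c', _, h1, h2⟩ := (hP n b (g b) hn).2.1 i c h
      rw [h1, guniq c c' m h2]
      rfl
  · intro i b
    obtain ⟨n, hn⟩ := hg b
    have h4 := ((hP n b (g b) hn).1 i).2
    rcases h : X.f i b with _ | c
    · rcases h' : X'.f i (g b) with _ | c'
      · rfl
      · have h5 := X.phi_none i b h
        have h6 := X'.phi_some i _ _ h'
        omega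
    · have h5 := X.phi_some i b c h
      obtain ⟨c', hc'⟩ := f_pos X' i (g b) (by omega)
      rw [hc', guniq c c' (n + 1) ⟨i, b, g b, hn, h, hc'⟩]
      rfl
  · intro b
    obtain ⟨n, hn⟩ := hg b
    exact (RR.wt hw hn).symm
  · exact (guniq u u' 0 ⟨rfl, rfl⟩).symm
  · intro b1 b2 h
    obtain ⟨n, hn⟩ := hg b1
    obtain ⟨m, hm⟩ := hg b2
    have h : g b1 = g b2 := h
    rw [← h] at hm
    exact rr_unique hu' (fun k => (hP k).symm) n m (g b1) b1 b2 hn.symm hm.symm

theorem mor_surj {X X' : Crystal Y} {u : X.B} {u' : X'.B} (hu' : Gen X' u') (g : Mor X X')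
    (h : g.map u = u') : Function.Surjective g.map := by
  intro b'
  obtain ⟨l, hl⟩ := hu'.2 b'
  rw [← h, fword_mor, Option.map_eq_some_iff] at hl
  obtain ⟨b, _, hb⟩ := hl
  exact ⟨b, hb⟩

theorem St.exists_iso (hY : SL Y) {X X' : Crystal Y} (hX : St X) (hX' : St X') {u : X.B}
    {u' : X'.B} (hu : Gen X u) (hu' : Gen X' u') (hw : X.wt u = X'.wt u') :
    ∃ g : Mor X X', g.map u = u' ∧ Function.Bijective g.map := by
  obtain ⟨g, h1, h2⟩ := St.exists_mor hY hX hX' hu hu'.1 hw
  exact ⟨g, h1, h2, mor_surj hu' g h1⟩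

end Pool.Agent.H94.KM
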