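import Pool.Agent.H94.KM.Tools

/-!
The component of a highest element of a Stembridge crystal.
-/

set_option autoImplicit false

namespace Pool.Agent.H94.KM

open Pool.Agent.H59.KY

variable {Y : Cartan}

theorem s1_cases (hY : SL Y) {X : Crystal Y} (hX : StE X) {i j : Y.I} (hij : i ≠ j) {x x' : X.B}
    (h : X.e i x = some x') :
    (X.eps j x' = X.eps j x ∧ X.phi j x' + 1 = X.phi j x ∧ Y.A i j = -1) ∨
    (X.eps j x' = X.eps j x + 1 ∧ X.phi j x' = X.phi j x ∧ Y.A i j = -1) ∨
    (X.eps j x' = X.eps j x ∧ X.phi j x' = X.phi j x ∧ Y.A i j = 0) := by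
  have h1 := hX.s1 i j x x' hij h
  have h2 := X.phi_eps j x
  have h3 := X.phi_eps j x'
  have h4 : X.wt x' j = X.wt x j + Y.A j i := by
    rw [X.wt_e i x x' h]
    rfl
  rcases hY i j hij with ⟨h5, h6⟩ | ⟨h5, h6⟩
  · rw [h6] at h4
    right; right
    omega
  · rw [h6] at h4
    by_cases h7 : X.eps j x' = X.eps j x
    · left
      omega
    · right; left
      omega

/-- elements reached from `u` by `n` operators `f` -/
def Rch (X : Crystal Y) (u : X.B) : ℕ → X.B → Prop
  | 0, b => b = u
  | n + 1, b => ∃ i b0, Rch X u n b0 ∧ X.f i b0 = some b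

theorem rch_iff (X : Crystal Y) (u b : X.B) :
    (∃ l : List Y.I, X.fword l u = some b) ↔ ∃ n, Rch X u n b := by
  constructor
  · rintro ⟨l, hl⟩
    refine ⟨l.length, ?_⟩
    induction l generalizing b with
    | nil => exact (Option.some.inj hl).symm
    | cons i l ih =>
      change (X.fword l u).bind (X.f i) = some b at hl
      rw [Option.bind_eq_some_iff] at hl
      obtain ⟨b0, h1, h2⟩ := hl
      exact ⟨i, b0, ih b0 h1, h2⟩
  · rintro ⟨n, hn⟩
    induction n generalizing b with
    | zero => exact ⟨[], congrArg some hn.symm⟩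
    | succ n ih =>
      obtain ⟨i, b0, h1, h2⟩ := hn
      obtain ⟨l, hl⟩ := ih b0 h1
      refine ⟨i :: l, ?_⟩
      change (X.fword l u).bind (X.f i) = some b
      rw [hl]
      exact h2

theorem rch_up (hY : SL Y) {X : Crystal Y} (hX : StE X) {u : X.B} (hu : ∀ i, X.e i u = none)
    (n : ℕ) : ∀ (b : X.B) (j : Y.I) (c : X.B), Rch X u n b → X.e j b = some c →
      ∃ m, n = m + 1 ∧ Rch X u m c := by
  induction n using Nat.strong_induction_on with
  | _ n ih =>
    intro b j c hb hc
    rcases n with _ | n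
    · have hb' : b = u := hb
      subst hb'
      rw [hu j] at hc
      exact absurd hc (by simp)
    · refine ⟨n, rfl, ?_⟩
      obtain ⟨i, b0, h1, h2⟩ := hb
      have h3 := (X.f_iff i b0 b).mp h2
      by_cases hij : i = j
      · subst hij
        rw [h3] at hc
        obtain rfl := Option.some.inj hc
        exact h1
      · rcases s1_cases hY hX hij h3 with k | k | k
        · obtain ⟨w, w1, w2, w3⟩ := hX.s5 i j b b0 c hij h3 hc k.1
          obtain ⟨m, rfl, hm⟩ := ih n (by omega) b0 j w h1 w1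
          exact ⟨i, w, hm, (X.f_iff i w c).mpr w2⟩
        · rcases s1_cases hY hX (Ne.symm hij) hc with l | l | l
          · obtain ⟨w, w1, w2, w3⟩ := hX.s5 j i b c b0 (Ne.symm hij) hc h3 l.1
            obtain ⟨m, rfl, hm⟩ := ih n (by omega) b0 j w h1 w2
            exact ⟨i, w, hm, (X.f_iff i w c).mpr w1⟩
          · obtain ⟨p, q, r, s, w, m1, m2, m3, m4, m5, m6, m7, m8⟩ :=
              hX.s6 i j b b0 c hij h3 hc k.1 l.1
            obtain ⟨n1, rfl, a1⟩ := ih n (by omega) b0 j p h1 m1
            obtain ⟨n2, rfl, a2⟩ := ih n1 (by omega) p j q a1 m2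
            obtain ⟨n3, rfl, a3⟩ := ih n2 (by omega) q i w a2 m3
            exact ⟨i, r, ⟨i, s, ⟨j, w, a3, (X.f_iff _ _ _).mpr m6⟩, (X.f_iff _ _ _).mpr m5⟩,
              (X.f_iff _ _ _).mpr m4⟩
          · obtain ⟨w, w1, w2, w3⟩ := hX.s5 j i b c b0 (Ne.symm hij) hc h3 l.1
            obtain ⟨m, rfl, hm⟩ := ih n (by omega) b0 j w h1 w2
            exact ⟨i, w, hm, (X.f_iff i w c).mpr w1⟩
        · obtain ⟨w, w1, w2, w3⟩ := hX.s5 i j b b0 c hij h3 hc k.1
          obtain ⟨m, rfl, hm⟩ := ih n (by omega) b0 j w h1 w1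
          exact ⟨i, w, hm, (X.f_iff i w c).mpr w2⟩

/-- The component of a highest element. -/
noncomputable def comp (hY : SL Y) (X : Crystal Y) (hX : StE X) (u : X.B)
    (hu : ∀ i, X.e i u = none) : Crystal Y :=
  sub X (fun b => ∃ l : List Y.I, X.fword l u = some b)
    (by
      intro i b c hb hc
      rw [rch_iff] at hb ⊢
      obtain ⟨n, hn⟩ := hb
      obtain ⟨m, _, hm⟩ := rch_up hY hX hu n b i c hn hc
      exact ⟨m, hm⟩)
    (by
      intro i b c hb hc
      rw [rch_iff] at hb ⊢
      obtain ⟨n, hn⟩ := hb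
      exact ⟨n + 1, i, b, hn, hc⟩)

theorem opt_pmap {α : Type} {P : α → Prop} (o : Option α) (h : ∀ c, c ∈ o → P c) :
    o = (o.pmap (fun c hc => (⟨c, hc⟩ : {c // P c})) h).map (fun b => b.1) := by
  cases o <;> rfl

/-- the inclusion of a subcrystal -/
noncomputable def subIncl (X : Crystal Y) (P : X.B → Prop)
    (he : ∀ i b c, P b → X.e i b = some c → P c) (hf : ∀ i b c, P b → X.f i b = some c → P c) :
    Mor (sub X P he hf) X where
  map := fun b => b.1
  map_e := fun i b => opt_pmap (X.e i b.1) _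
  map_f := fun i b => opt_pmap (X.f i b.1) _
  map_wt := fun _ => rfl

/-- the inclusion of the component -/
noncomputable def compIncl (hY : SL Y) (X : Crystal Y) (hX : StE X) (u : X.B)
    (hu : ∀ i, X.e i u = none) : Mor (comp hY X hX u hu) X :=
  subIncl X _ _ _

theorem compIncl_inj (hY : SL Y) (X : Crystal Y) (hX : StE X) (u : X.B)
    (hu : ∀ i, X.e i u = none) : Function.Injective (compIncl hY X hX u hu).map :=
  Subtype.val_injective

/-- the generator of the component -/
noncomputable def compTop (hY : SL Y) (X : Crystal Y) (hX : StE X) (u : X.B)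
    (hu : ∀ i, X.e i u = none) : (comp hY X hX u hu).B := ⟨u, [], rfl⟩

theorem compIncl_top (hY : SL Y) (X : Crystal Y) (hX : StE X) (u : X.B)
    (hu : ∀ i, X.e i u = none) : (compIncl hY X hX u hu).map (compTop hY X hX u hu) = u := rfl

theorem fword_mor {X X' : Crystal Y} (g : Mor X X') (l : List Y.I) (b : X.B) :
    X'.fword l (g.map b) = (X.fword l b).map g.map := by
  induction l with
  | nil => rfl
  | cons i l ih =>
    change (X'.fword l (g.map b)).bind (X'.f i) = ((X.fword l b).bind (X.f i)).map g.map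
    rw [ih]
    rcases X.fword l b with _ | c
    · rfl
    · exact g.map_f i c

theorem comp_gen (hY : SL Y) (X : Crystal Y) (hX : StE X) (u : X.B)
    (hu : ∀ i, X.e i u = none) : Gen (comp hY X hX u hu) (compTop hY X hX u hu) := by
  constructor
  · intro i
    rcases h : (comp hY X hX u hu).e i (compTop hY X hX u hu) with _ | c
    · rfl
    · have h1 := mor_e_some (compIncl hY X hX u hu) h
      rw [compIncl_top, hu i] at h1
      exact absurd h1 (by simp)
  · rintro ⟨b, l, hl⟩
    refine ⟨l, ?_⟩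
    have h1 := fword_mor (compIncl hY X hX u hu) l (compTop hY X hX u hu)
    rw [compIncl_top, hl] at h1
    symm at h1
    rw [Option.map_eq_some_iff] at h1
    obtain ⟨c, h2, h3⟩ := h1
    rw [h2]
    exact congrArg some (Subtype.ext h3)

theorem comp_st (hY : SL Y) (X : Crystal Y) (hX : St X) (u : X.B)
    (hu : ∀ i, X.e i u = none) : St (comp hY X hX.1 u hu) :=
  St.of_mor (compIncl hY X hX.1 u hu) (compIncl_inj hY X hX.1 u hu) hX

end Pool.Agent.H94.KM
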