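import Pool.Agent.H94.KM.Comp

/-!
Tensor products of Stembridge crystals.
-/

set_option autoImplicit false

namespace Pool.Agent.H94.KM

open Pool.Agent.H59.KY

variable {Y : Cartan}

theorem te_left {X Z : Crystal Y} {i : Y.I} {a a' : X.B} {b : Z.B} (h : Z.phi i b < X.eps i a)
    (ha : X.e i a = some a') : (X.tensor Z).e i (a, b) = some (a', b) := by
  change (if Z.phi i b < X.eps i a then (X.e i a).map (fun a => (a, b))
    else (Z.e i b).map (fun b => (a, b))) = some (a', b)
  rw [if_pos h, ha]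
  rfl

theorem te_right {X Z : Crystal Y} {i : Y.I} {a : X.B} {b b' : Z.B} (h : X.eps i a ≤ Z.phi i b)
    (hb : Z.e i b = some b') : (X.tensor Z).e i (a, b) = some (a, b') := by
  change (if Z.phi i b < X.eps i a then (X.e i a).map (fun a => (a, b))
    else (Z.e i b).map (fun b => (a, b))) = some (a, b')
  rw [if_neg (by omega), hb]
  rfl

theorem te_cases {X Z : Crystal Y} {i : Y.I} {a : X.B} {b : Z.B} {z : X.B × Z.B}
    (h : (X.tensor Z).e i (a, b) = some z) :
    (Z.phi i b < X.eps i a ∧ ∃ a', X.e i a = some a' ∧ z = (a', b)) ∨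
    (X.eps i a ≤ Z.phi i b ∧ ∃ b', Z.e i b = some b' ∧ z = (a, b')) := by
  change (if Z.phi i b < X.eps i a then (X.e i a).map (fun a => (a, b))
    else (Z.e i b).map (fun b => (a, b))) = some z at h
  split_ifs at h with h1
  · rw [Option.map_eq_some_iff] at h
    obtain ⟨a', h2, h3⟩ := h
    exact Or.inl ⟨h1, a', h2, h3.symm⟩
  · rw [Option.map_eq_some_iff] at h
    obtain ⟨b', h2, h3⟩ := h
    exact Or.inr ⟨by omega, b', h2, h3.symm⟩

theorem teps (X Z : Crystal Y) (i : Y.I) (a : X.B) (b : Z.B) :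
    (X.tensor Z).eps i (a, b) = Z.eps i b + (X.eps i a - Z.phi i b) := rfl

theorem tphi (X Z : Crystal Y) (i : Y.I) (a : X.B) (b : Z.B) :
    (X.tensor Z).phi i (a, b) = X.phi i a + (Z.phi i b - X.eps i a) := rfl

/-- After a step of type E in direction `i`, a step in direction `j` has type F. -/
theorem L1 (hY : SL Y) {X : Crystal Y} (hX : St X) {i j : Y.I} (hij : i ≠ j) {a a' u : X.B}
    (h1 : X.e i a = some a') (h2 : X.e j a' = some u) (h3 : X.eps j a' = X.eps j a + 1) :
    X.eps i u = X.eps i a' := by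
  rcases s1_cases hY hX.1 (Ne.symm hij) h2 with k | k | k
  · exact k.1
  · exfalso
    have h4 := phi_e X i a a' h1
    obtain ⟨c, hc⟩ := f_pos X i u (by omega)
    obtain ⟨w, w1, w2, w3⟩ := hX.2.s5 j i u a' c (Ne.symm hij) ((X.f_iff _ _ _).mpr h2) hc
      (show X.phi i a' = X.phi i u by omega)
    have w1' : X.f i a' = some w := w1
    rw [(X.f_iff _ _ _).mpr h1] at w1'
    obtain rfl := Option.some.inj w1'
    have w3' : X.eps j a = X.eps j a' := w3
    omega
  · exact k.1

/-- the conclusion of the octagon axiom -/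
def Oct (T : Crystal Y) (i j : Y.I) (z1 z2 : T.B) : Prop :=
  ∃ p q r s w, T.e j z1 = some p ∧ T.e j p = some q ∧ T.e i q = some w ∧
    T.e i z2 = some r ∧ T.e i r = some s ∧ T.e j s = some w ∧
    T.phi j q = T.phi j w + 1 ∧ T.phi i s = T.phi i w + 1

theorem Oct.symm {T : Crystal Y} {i j : Y.I} {z1 z2 : T.B} (h : Oct T i j z1 z2) :
    Oct T j i z2 z1 := by
  obtain ⟨p, q, r, s, w, h1, h2, h3, h4, h5, h6, h7, h8⟩ := h
  exact ⟨r, s, p, q, w, h4, h5, h6, h1, h2, h3, h8, h7⟩

section octagons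

variable {X Z : Crystal Y} {i j : Y.I} {a a1 a2 : X.B} {b b1 b2 : Z.B}

/-- both operators act on the left -/
theorem octLL (hY : SL Y) (hX : StE X) (hij : i ≠ j) (hi : Z.phi i b < X.eps i a)
    (hj : Z.phi j b < X.eps j a) (h1 : X.e i a = some a1) (h2 : X.e j a = some a2)
    (k1 : X.eps j a1 = X.eps j a + 1) (k2 : X.eps i a2 = X.eps i a + 1) :
    Oct (X.tensor Z) i j (a1, b) (a2, b) := by
  obtain ⟨p, q, r, s, w, m1, m2, m3, m4, m5, m6, m7, m8⟩ := hX.s6 i j a a1 a2 hij h1 h2 k1 k2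
  have e1 := X.eps_some _ _ _ h1
  have e2 := X.eps_some _ _ _ h2
  have e3 := X.eps_some _ _ _ m1
  have e4 := X.eps_some _ _ _ m2
  have e5 := X.eps_some _ _ _ m3
  have e6 := X.eps_some _ _ _ m4
  have e7 := X.eps_some _ _ _ m5
  have e8 := X.eps_some _ _ _ m6
  have s3 := s1_cases hY hX hij m3
  have s6 := s1_cases hY hX (Ne.symm hij) m6
  refine ⟨(p, b), (q, b), (r, b), (s, b), (w, b), te_left (by omega) m1, te_left (by omega) m2,
    te_left (by omega) m3, te_left (by omega) m4, te_left (by omega) m5, te_left (by omega) m6,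
    ?_, ?_⟩
  · rw [tphi, tphi]
    omega
  · rw [tphi, tphi]
    omega

/-- both operators act on the right, types E and E -/
theorem octRR (hY : SL Y) (hZ : StE Z) (hij : i ≠ j) (hi : X.eps i a ≤ Z.phi i b)
    (hj : X.eps j a ≤ Z.phi j b) (h1 : Z.e i b = some b1) (h2 : Z.e j b = some b2)
    (k1 : Z.eps j b1 = Z.eps j b + 1) (k2 : Z.eps i b2 = Z.eps i b + 1) :
    Oct (X.tensor Z) i j (a, b1) (a, b2) := by
  obtain ⟨p, q, r, s, w, m1, m2, m3, m4, m5, m6, m7, m8⟩ := hZ.s6 i j b b1 b2 hij h1 h2 k1 k2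
  have e1 := phi_e Z _ _ _ h1
  have e2 := phi_e Z _ _ _ h2
  have e3 := phi_e Z _ _ _ m1
  have e4 := phi_e Z _ _ _ m2
  have e5 := phi_e Z _ _ _ m3
  have e6 := phi_e Z _ _ _ m4
  have e7 := phi_e Z _ _ _ m5
  have e8 := phi_e Z _ _ _ m6
  have s1 := s1_cases hY hZ hij h1
  have s2 := s1_cases hY hZ (Ne.symm hij) h2
  refine ⟨(a, p), (a, q), (a, r), (a, s), (a, w), te_right (by omega) m1, te_right (by omega) m2,
    te_right (by omega) m3, te_right (by omega) m4, te_right (by omega) m5, te_right (by omega) m6,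
    ?_, ?_⟩
  · rw [tphi, tphi]
    omega
  · rw [tphi, tphi]
    omega

/-- both operators act on the right, types F and E -/
theorem octRRF (hY : SL Y) (hX : StE X) (hZ : St Z) (hij : i ≠ j) (hi : X.eps i a ≤ Z.phi i b)
    (hj : X.eps j a = Z.phi j b) (h1 : Z.e i b = some b1) (h2 : Z.e j b = some b2)
    (k1 : Z.eps j b1 = Z.eps j b) (k1' : Z.phi j b1 + 1 = Z.phi j b) :
    Oct (X.tensor Z) i j (a, b1) (a, b2) := by
  obtain ⟨v, w1, w2, w3⟩ := hZ.1.s5 i j b b1 b2 hij h1 h2 k1
  have hA := hY i j hij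
  have e1 := phi_e Z _ _ _ h1
  have e2 := phi_e Z _ _ _ h2
  have e3 := phi_e Z _ _ _ w1
  have e4 := phi_e Z _ _ _ w2
  have f1 := Z.eps_some _ _ _ h1
  have f2 := Z.eps_some _ _ _ h2
  have f3 := Z.eps_some _ _ _ w1
  have f4 := Z.eps_some _ _ _ w2
  have s1 := s1_cases hY hZ.1 hij h1
  have s2 := s1_cases hY hZ.1 (Ne.symm hij) h2
  have s3 := s1_cases hY hZ.1 (Ne.symm hij) w1
  have s4 := s1_cases hY hZ.1 hij w2
  obtain ⟨a', ha'⟩ := e_pos X j a (by omega)
  have g1 := X.eps_some _ _ _ ha'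
  have g2 := phi_e X _ _ _ ha'
  have g3 := s1_cases hY hX (Ne.symm hij) ha'
  obtain ⟨v2, hv2⟩ := e_pos Z i v (by omega)
  have e5 := phi_e Z _ _ _ hv2
  have f5 := Z.eps_some _ _ _ hv2
  have l1 := L1 hY hZ (Ne.symm hij) w1 hv2 (by omega)
  have s5 := s1_cases hY hZ.1 hij hv2
  refine ⟨(a', b1), (a', v), (a, v), (a, v2), (a', v2), te_left (by omega) ha',
    te_right (by omega) w1, te_right (by omega) hv2, te_right (by omega) w2,
    te_right (by omega) hv2, te_left (by omega) ha', ?_, ?_⟩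
  · rw [tphi, tphi]
    omega
  · rw [tphi, tphi]
    omega

/-- `i` acts on the left, `j` on the right -/
theorem octLR (hY : SL Y) (hX : St X) (hZ : St Z) (hij : i ≠ j) (hi : Z.phi i b < X.eps i a)
    (hj : X.eps j a = Z.phi j b) (h1 : X.e i a = some a1) (h2 : Z.e j b = some b2)
    (k1 : X.eps j a1 = X.eps j a + 1) :
    Oct (X.tensor Z) i j (a1, b) (a, b2) := by
  have hA := hY i j hij
  have e1 := X.eps_some _ _ _ h1
  have e1' := phi_e X _ _ _ h1
  have e2 := Z.eps_some _ _ _ h2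
  have e2' := phi_e Z _ _ _ h2
  have s1 := s1_cases hY hX.1 hij h1
  have s2 := s1_cases hY hZ.1 (Ne.symm hij) h2
  obtain ⟨c, hc⟩ := e_pos X j a1 (by omega)
  have e3 := X.eps_some _ _ _ hc
  have e3' := phi_e X _ _ _ hc
  have s3 := s1_cases hY hX.1 (Ne.symm hij) hc
  have l1 := L1 hY hX hij h1 hc k1
  by_cases hA : Z.phi i b2 < X.eps i a1
  · obtain ⟨d, hd⟩ := e_pos X i a1 (by omega)
    have e4 := X.eps_some _ _ _ hd
    have e4' := phi_e X _ _ _ hd
    have s4 := s1_cases hY hX.1 hij hd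
    obtain ⟨g, g1, g2, g3⟩ := hX.1.s5 j i a1 c d (Ne.symm hij) hc hd l1
    have e5 := X.eps_some _ _ _ g1
    have e5' := phi_e X _ _ _ g1
    have e6 := X.eps_some _ _ _ g2
    have e6' := phi_e X _ _ _ g2
    have s5 := s1_cases hY hX.1 hij g1
    have s6 := s1_cases hY hX.1 (Ne.symm hij) g2
    refine ⟨(c, b), (c, b2), (a1, b2), (d, b2), (g, b2), te_left (by omega) hc,
      te_right (by omega) h2, te_left (by omega) g1, te_left (by omega) h1,
      te_left (by omega) hd, te_left (by omega) g2, ?_, ?_⟩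
    · rw [tphi, tphi]
      omega
    · rw [tphi, tphi]
      omega
  · obtain ⟨h, hh⟩ := e_pos Z i b2 (by omega)
    have e4 := Z.eps_some _ _ _ hh
    have e4' := phi_e Z _ _ _ hh
    have s4 := s1_cases hY hZ.1 hij hh
    have l2 := L1 hY hZ (Ne.symm hij) h2 hh (by omega)
    refine ⟨(c, b), (c, b2), (a1, b2), (a1, h), (c, h), te_left (by omega) hc,
      te_right (by omega) h2, te_right (by omega) hh, te_left (by omega) h1,
      te_right (by omega) hh, te_left (by omega) hc, ?_, ?_⟩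
    · rw [tphi, tphi]
      omega
    · rw [tphi, tphi]
      omega

end octagons

theorem StE.tensor (hY : SL Y) {X Z : Crystal Y} (hX : St X) (hZ : St Z) : StE (X.tensor Z) where
  s1 := by
    rintro i j ⟨a, b⟩ z hij h
    rcases te_cases h with ⟨h1, a', h2, rfl⟩ | ⟨h1, b', h2, rfl⟩
    · have := hX.1.s1 i j _ _ hij h2
      rw [teps, teps, tphi, tphi]
      omega
    · have := hZ.1.s1 i j _ _ hij h2
      rw [teps, teps, tphi, tphi]
      omega
  s5 := by
    rintro i j ⟨a, b⟩ z1 z2 hij h1 h2 h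
    rcases te_cases h1 with ⟨hi, a1, ha1, rfl⟩ | ⟨hi, b1, hb1, rfl⟩
    · rcases te_cases h2 with ⟨hj, a2, ha2, rfl⟩ | ⟨hj, b2, hb2, rfl⟩
      · rw [teps, teps] at h
        have s1 := hX.1.s1 i j _ _ hij ha1
        have s2 := hX.1.s1 j i _ _ (Ne.symm hij) ha2
        obtain ⟨w, w1, w2, w3⟩ := hX.1.s5 i j a a1 a2 hij ha1 ha2 (by omega)
        have s3 := hX.1.s1 j i _ _ (Ne.symm hij) w1
        have e1 := X.eps_some _ _ _ ha1
        refine ⟨(w, b), te_left (by omega) w1, te_left (by omega) w2, ?_⟩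
        rw [tphi, tphi]
        omega
      · rw [teps, teps] at h
        have s2 := hZ.1.s1 j i _ _ (Ne.symm hij) hb2
        have e1 := X.eps_some _ _ _ ha1
        refine ⟨(a1, b2), te_right (by omega) hb2, te_left (by omega) ha1, ?_⟩
        rw [tphi, tphi]
        omega
    · rcases te_cases h2 with ⟨hj, a2, ha2, rfl⟩ | ⟨hj, b2, hb2, rfl⟩
      · rw [teps, teps] at h
        have s1 := s1_cases hY hZ.1 hij hb1
        have s2 := s1_cases hY hX.1 (Ne.symm hij) ha2
        have hA : Y.A i j = 0 ∨ Y.A i j = -1 := by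
          rcases hY i j hij with h5 | h5
          · exact Or.inl h5.1
          · exact Or.inr h5.1
        have hA' : Y.A i j = 0 → Y.A j i = 0 := Y.zero i j
        refine ⟨(a2, b1), te_left (by omega) ha2, te_right (by omega) hb1, ?_⟩
        rw [tphi, tphi]
        omega
      · rw [teps, teps] at h
        have s1 := hZ.1.s1 i j _ _ hij hb1
        obtain ⟨w, w1, w2, w3⟩ := hZ.1.s5 i j b b1 b2 hij hb1 hb2 (by omega)
        have e1 := phi_e Z _ _ _ hb1
        have e2 := phi_e Z _ _ _ w2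
        refine ⟨(a, w), te_right (by omega) w1, te_right (by omega) w2, ?_⟩
        rw [tphi, tphi]
        omega
  s6 := by
    rintro i j ⟨a, b⟩ z1 z2 hij h1 h2 h h'
    change Oct (X.tensor Z) i j z1 z2
    rcases te_cases h1 with ⟨hi, a1, ha1, rfl⟩ | ⟨hi, b1, hb1, rfl⟩
    · have s1 := s1_cases hY hX.1 hij ha1
      rcases te_cases h2 with ⟨hj, a2, ha2, rfl⟩ | ⟨hj, b2, hb2, rfl⟩
      · have s2 := s1_cases hY hX.1 (Ne.symm hij) ha2
        rw [teps, teps] at h h'
        exact octLL hY hX.1 hij hi hj ha1 ha2 (by omega) (by omega)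
      · rw [teps, teps] at h h'
        exact octLR hY hX hZ hij hi (by omega) ha1 hb2 (by omega)
    · have s1 := s1_cases hY hZ.1 hij hb1
      rcases te_cases h2 with ⟨hj, a2, ha2, rfl⟩ | ⟨hj, b2, hb2, rfl⟩
      · have s2 := s1_cases hY hX.1 (Ne.symm hij) ha2
        rw [teps, teps] at h h'
        exact (octLR hY hX hZ (Ne.symm hij) hj (by omega) ha2 hb1 (by omega)).symm
      · have s2 := s1_cases hY hZ.1 (Ne.symm hij) hb2
        rw [teps, teps] at h h'
        by_cases c1 : Z.eps j b1 = Z.eps j b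
        · exact octRRF hY hX.1 hZ hij hi (by omega) hb1 hb2 c1 (by omega)
        · by_cases c2 : Z.eps i b2 = Z.eps i b
          · exact (octRRF hY hX.1 hZ (Ne.symm hij) hj (by omega) hb2 hb1 c2 (by omega)).symm
          · exact octRR hY hZ.1 hij hi hj hb1 hb2 (by omega) (by omega)

/-- the dual of a tensor product -/
def swapMor (X Z : Crystal Y) : Mor (dual (X.tensor Z)) ((dual Z).tensor (dual X)) where
  map := fun z => (z.2, z.1)
  map_e := by
    rintro i ⟨a, b⟩
    change (if X.eps i a < Z.phi i b then (Z.f i b).map (fun b => (b, a))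
      else (X.f i a).map (fun a => (b, a))) =
      Option.map (fun z : X.B × Z.B => (z.2, z.1)) (if Z.phi i b ≤ X.eps i a then
        (X.f i a).map (fun a => (a, b)) else (Z.f i b).map (fun b => (a, b)))
    by_cases h : X.eps i a < Z.phi i b
    · rw [if_pos h, if_neg (by omega)]
      rcases Z.f i b with _ | c <;> rfl
    · rw [if_neg h, if_pos (by omega)]
      rcases X.f i a with _ | c <;> rfl
  map_f := by
    rintro i ⟨a, b⟩
    change (if X.eps i a ≤ Z.phi i b then (Z.e i b).map (fun b => (b, a))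
      else (X.e i a).map (fun a => (b, a))) =
      Option.map (fun z : X.B × Z.B => (z.2, z.1)) (if Z.phi i b < X.eps i a then
        (X.e i a).map (fun a => (a, b)) else (Z.e i b).map (fun b => (a, b)))
    by_cases h : X.eps i a ≤ Z.phi i b
    · rw [if_pos h, if_neg (by omega)]
      rcases Z.e i b with _ | c <;> rfl
    · rw [if_neg h, if_pos (by omega)]
      rcases X.e i a with _ | c <;> rfl
  map_wt := by
    rintro ⟨a, b⟩
    change - Z.wt b + - X.wt a = - (X.wt a + Z.wt b)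
    abel

theorem swapMor_inj (X Z : Crystal Y) : Function.Injective (swapMor X Z).map := by
  rintro ⟨a, b⟩ ⟨a', b'⟩ h
  obtain ⟨h1, h2⟩ := Prod.mk.inj h
  exact Prod.ext h2 h1

theorem St.tensor (hY : SL Y) {X Z : Crystal Y} (hX : St X) (hZ : St Z) : St (X.tensor Z) :=
  ⟨StE.tensor hY hX hZ, StE.of_mor (swapMor X Z) (swapMor_inj X Z)
    (StE.tensor hY (St.dual hZ) (St.dual hX))⟩

end Pool.Agent.H94.KM
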