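import Pool.Agent.H59.KY.Defs

/-!
Stembridge crystals over a simply laced Cartan matrix: definitions and the statements used by the
other files of this folder.
-/

set_option autoImplicit false

namespace Pool.Agent.H94.KM

open Pool.Agent.H59.KY

/-- simply laced -/
def SL (Y : Cartan) : Prop :=
  ∀ i j, i ≠ j → (Y.A i j = 0 ∧ Y.A j i = 0) ∨ (Y.A i j = -1 ∧ Y.A j i = -1)

variable {Y : Cartan}

/-- the dual crystal: `e` and `f` are exchanged, weights are negated -/
def dual (X : Crystal Y) : Crystal Y where
  B := X.B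
  wt := fun b => - X.wt b
  e := X.f
  f := X.e
  eps := X.phi
  phi := X.eps
  f_iff := fun i b b' => (X.f_iff i b' b).symm
  wt_e := by
    intro i b b' h
    have h1 := X.wt_e i b' b ((X.f_iff i b b').mp h)
    rw [h1]
    abel
  eps_none := X.phi_none
  eps_some := X.phi_some
  phi_none := X.eps_none
  phi_some := X.eps_some
  phi_eps := by
    intro i b
    have h1 := X.phi_eps i b
    rw [Pi.neg_apply]
    omega

/-- The half of the axioms of Stembridge that concerns the operators `e`. -/
structure StE (X : Crystal Y) : Prop where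
  s1 : ∀ i j x x', i ≠ j → X.e i x = some x' → X.eps j x ≤ X.eps j x' ∧ X.phi j x' ≤ X.phi j x
  s5 : ∀ i j x a b, i ≠ j → X.e i x = some a → X.e j x = some b → X.eps j a = X.eps j x →
    ∃ w, X.e j a = some w ∧ X.e i b = some w ∧ X.phi i w = X.phi i a
  s6 : ∀ i j x a b, i ≠ j → X.e i x = some a → X.e j x = some b →
    X.eps j a = X.eps j x + 1 → X.eps i b = X.eps i x + 1 →
    ∃ p q r s w, X.e j a = some p ∧ X.e j p = some q ∧ X.e i q = some w ∧
      X.e i b = some r ∧ X.e i r = some s ∧ X.e j s = some w ∧
      X.phi j q = X.phi j w + 1 ∧ X.phi i s = X.phi i w + 1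

/-- Stembridge crystals -/
def St (X : Crystal Y) : Prop := StE X ∧ StE (dual X)

/-- `u` is a highest element generating `X` -/
def Gen (X : Crystal Y) (u : X.B) : Prop :=
  (∀ i, X.e i u = none) ∧ ∀ b, ∃ l : List Y.I, X.fword l u = some b

end Pool.Agent.H94.KM
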