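import Pool.Agent.H38.KE.Weyl
import Pool.Agent.H7.KM.Unf
import Pool.Agent.H94.KM.Comp

/-!
The longest element of the Weyl group, from the existence of crystals generated by a highest
element of given dominant weight.
-/

set_option autoImplicit false

open scoped Classical

namespace Pool.Agent.H94.KM

open Pool.Agent.H59.KY Pool.Agent.H7.KM

variable {C : Cartan}

/-- existence of the crystals with highest element of given dominant weight -/
def HasB (C : Cartan) : Prop :=
  ∀ lam : C.I → ℕ, ∃ (X : Crystal C) (u : X.B), Gen X u ∧ ∀ i, X.wt u i = lam i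

/-- natural numbers as integers -/
def cst {I : Type} (n : I → ℕ) : I → ℤ := fun j => (n j : ℤ)

theorem exists_word {w : C.Aut} (hw : w ∈ C.W) : ∃ l, C.wprod l = w := by
  unfold Cartan.W at hw
  induction hw using Subgroup.closure_induction with
  | mem x hx =>
    obtain ⟨i, rfl⟩ := hx
    exact ⟨[i], wprod_single i⟩
  | one => exact ⟨[], rfl⟩
  | mul x y _ _ h1 h2 =>
    obtain ⟨l1, rfl⟩ := h1
    obtain ⟨l2, rfl⟩ := h2
    exact ⟨l1 ++ l2, wprod_append l1 l2⟩
  | inv x _ h =>
    obtain ⟨l, rfl⟩ := h
    exact ⟨l.reverse, wprod_reverse l⟩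

theorem wt_add_string (X : Crystal C) (i : C.I) (k : ℕ) : ∀ b : X.B, k ≤ X.eps i b →
    ∃ b', X.wt b' = X.wt b + (k : ℤ) • C.al i := by
  induction k with
  | zero =>
    intro b _
    exact ⟨b, by simp⟩
  | succ k ih =>
    intro b hb
    obtain ⟨c, hc⟩ := e_pos X i b (by omega)
    have h1 := X.eps_some i b c hc
    obtain ⟨b', hb'⟩ := ih c (by omega)
    refine ⟨b', ?_⟩
    rw [hb', X.wt_e i b c hc]
    push_cast
    rw [add_smul, one_smul]
    abel

theorem wt_sub_string (X : Crystal C) (i : C.I) (k : ℕ) : ∀ b : X.B, k ≤ X.phi i b →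
    ∃ b', X.wt b' = X.wt b - (k : ℤ) • C.al i := by
  induction k with
  | zero =>
    intro b _
    exact ⟨b, by simp⟩
  | succ k ih =>
    intro b hb
    obtain ⟨c, hc⟩ := f_pos X i b (by omega)
    have h1 := X.phi_some i b c hc
    obtain ⟨b', hb'⟩ := ih c (by omega)
    refine ⟨b', ?_⟩
    have h2 := X.wt_e i c b ((X.f_iff i b c).mp hc)
    rw [hb', h2]
    push_cast
    rw [add_smul, one_smul]
    abel

theorem exists_wt_s (X : Crystal C) (i : C.I) (b : X.B) : ∃ b', X.wt b' = C.s i (X.wt b) := by
  have h := X.phi_eps i b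
  by_cases h0 : 0 ≤ X.wt b i
  · obtain ⟨b', hb'⟩ := wt_sub_string X i (X.wt b i).toNat b (by omega)
    refine ⟨b', ?_⟩
    rw [hb', Int.toNat_of_nonneg h0]
    rfl
  · obtain ⟨b', hb'⟩ := wt_add_string X i (-(X.wt b i)).toNat b (by omega)
    refine ⟨b', ?_⟩
    rw [hb', Int.toNat_of_nonneg (by omega), neg_smul]
    rfl

/-- the set of weights of a crystal is stable under the Weyl group -/
theorem exists_wt_wprod (X : Crystal C) (l : List C.I) (b : X.B) :
    ∃ b', X.wt b' = C.wprod l (X.wt b) := by
  induction l with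
  | nil => exact ⟨b, rfl⟩
  | cons i l ih =>
    obtain ⟨b', hb'⟩ := ih
    obtain ⟨b'', hb''⟩ := exists_wt_s X i b'
    refine ⟨b'', ?_⟩
    rw [hb'', hb', wprod_cons]
    rfl

/-- all the weights are below the highest one -/
theorem wt_below {X : Crystal C} {u : X.B} (hu : Gen X u) (b : X.B) :
    ∃ n : C.I → ℕ, X.wt b = X.wt u - C.root (cst n) := by
  obtain ⟨l, hl⟩ := hu.2 b
  exact ⟨fun j => l.count j, wt_fword X l u b hl⟩

/-- dominant weights are maximal in their orbits -/
theorem orbit_le (H : HasB C) (lam : C.I → ℕ) (l : List C.I) :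
    ∃ n : C.I → ℕ, C.wprod l (C.dom lam) = C.dom lam - C.root (cst n) := by
  obtain ⟨X, u, hu, hw⟩ := H lam
  have h1 : X.wt u = C.dom lam := funext hw
  obtain ⟨b, hb⟩ := exists_wt_wprod X l u
  obtain ⟨n, hn⟩ := wt_below hu b
  rw [h1] at hb hn
  exact ⟨n, by rw [← hb, hn]⟩

/-- every weight is a difference of dominant weights -/
theorem wt_diff (x : C.Wt) : ∃ a b : C.I → ℕ, x = C.dom a - C.dom b := by
  refine ⟨fun i => (x i).toNat, fun i => (-(x i)).toNat, ?_⟩
  funext i
  change x i = ((x i).toNat : ℤ) - ((-(x i)).toNat : ℤ)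
  omega

theorem wprod_root (l : List C.I) (n : C.I → ℤ) : C.wprod l (C.root n) = C.root (rw' l n) :=
  (root_rw' l n).symm

/-- the images of the simple roots are positive or negative -/
theorem sign_root (H : HasB C) (l : List C.I) (j : C.I) :
    (∀ i, 0 ≤ rw' l (Pi.single j 1) i) ∨ (∀ i, rw' l (Pi.single j 1) i ≤ 0) := by
  -- a dominant weight not orthogonal to the root
  have hex : ∃ lam : C.I → ℕ, (C.wprod l)⁻¹ (C.dom lam) j ≠ 0 := by
    by_contra hno
    push Not at hno
    obtain ⟨a, b, hab⟩ := wt_diff (C.wprod l (C.al j))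
    have h1 : (C.wprod l)⁻¹ (C.wprod l (C.al j)) = C.al j := by
      rw [← LinearEquiv.mul_apply, inv_mul_cancel]
      rfl
    have h2 : C.al j j = 0 := by
      rw [← h1, hab, map_sub, Pi.sub_apply, hno, hno, sub_zero]
    unfold Cartan.al at h2
    rw [C.diag] at h2
    omega
  obtain ⟨lam, hlam⟩ := hex
  set c := (C.wprod l)⁻¹ (C.dom lam) j with hc
  obtain ⟨n, hn⟩ := orbit_le H lam (l ++ [j] ++ l.reverse)
  rw [wprod_append, wprod_append, wprod_reverse, wprod_single, LinearEquiv.mul_apply,
    LinearEquiv.mul_apply, s_apply, map_sub, ← hc, map_smul] at hn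
  have h1 : C.wprod l ((C.wprod l)⁻¹ (C.dom lam)) = C.dom lam := by
    rw [← LinearEquiv.mul_apply, mul_inv_cancel]
    rfl
  rw [h1] at hn
  have h2 : c • C.wprod l (C.al j) = C.root (cst n) := sub_right_inj.mp hn
  rw [← root_single_one, wprod_root] at h2
  have h3 : C.root (c • rw' l (Pi.single j 1)) = C.root (cst n) := by
    rw [← h2]
    unfold Cartan.root
    rw [Finset.smul_sum]
    refine Finset.sum_congr rfl fun k _ => ?_
    rw [Pi.smul_apply, smul_eq_mul, mul_smul]
  have h4 := root_inj h3
  rcases lt_or_gt_of_ne hlam with h | h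
  · right
    intro i
    have h5 : c * rw' l (Pi.single j 1) i = n i := congrFun h4 i
    by_contra h6
    push Not at h6
    have := mul_neg_of_neg_of_pos h h6
    omega
  · left
    intro i
    have h5 : c * rw' l (Pi.single j 1) i = n i := congrFun h4 i
    by_contra h6
    push Not at h6
    have := mul_neg_of_pos_of_neg h h6
    omega

theorem symQ (S : Sym C) : ∀ i j, ((S.n i : ℕ) : ℚ) * C.A i j = ((S.n j : ℕ) : ℚ) * C.A j i := by
  intro i j
  exact_mod_cast S.sym i j

/-- the sum of the coordinates, weighted by the symmetriser, is the pairing with the weight whose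
coordinates are 1 -/
theorem form_rho (S : Sym C) (n : C.I → ℤ) :
    form (fun i => (S.n i : ℚ)) n (C.dom (fun _ => 1)) = ∑ i, ((S.n i * n i : ℤ) : ℚ) := by
  unfold form Cartan.dom
  refine Finset.sum_congr rfl fun i _ => ?_
  push_cast
  ring

theorem rw_ne_zero (l : List C.I) (j : C.I) : rw' l (Pi.single j 1) ≠ 0 := by
  intro h
  have h1 := wprod_root l (Pi.single j 1)
  rw [h, root_zero, root_single_one] at h1
  exact w_al_ne _ _ h1

/-- there is an element of the Weyl group sending the dominant chamber to its opposite -/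
theorem exists_opposite (H : HasB C) (HF : ∀ (X : Crystal C) (u : X.B), Gen X u → Finite X.B) :
    ∃ l : List C.I, ∀ i, C.wprod l (C.dom (fun _ => 1)) i < 0 := by
  obtain ⟨S⟩ := exists_sym C
  obtain ⟨X, u, hu, hw⟩ := H (fun _ => 1)
  have hu1 : X.wt u = C.dom (fun _ => 1) := funext hw
  have hfin := HF X u hu
  choose n hn using fun b => wt_below hu b
  have hne : {b : X.B | ∃ l, X.wt b = C.wprod l (C.dom (fun _ => 1))}.Nonempty :=
    ⟨u, [], hu1⟩
  obtain ⟨b, ⟨l, hl⟩, hmax⟩ := Set.exists_max_image _ (fun b => ∑ i, n b i)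
    (Set.toFinite {b : X.B | ∃ l, X.wt b = C.wprod l (C.dom (fun _ => 1))}) hne
  refine ⟨l, fun i => ?_⟩
  by_contra hi
  push Not at hi
  rcases hi.eq_or_lt with h0 | h0
  · -- the coordinate vanishes
    have h1 := form_rw' (fun i => (S.n i : ℚ)) (symQ S) l.reverse (Pi.single i 1)
      (C.wprod l (C.dom (fun _ => 1)))
    rw [wprod_inv_rev, form_single, ← h0, form_rho] at h1
    have h2 : ∑ k, (S.n k * rw' l.reverse (Pi.single i 1) k : ℤ) = 0 := by
      have : ((∑ k, (S.n k * rw' l.reverse (Pi.single i 1) k : ℤ) : ℤ) : ℚ) = 0 := by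
        push_cast at h1 ⊢
        rw [h1]
        simp
      exact_mod_cast this
    apply rw_ne_zero l.reverse i
    funext k
    rcases sign_root H l.reverse i with hs | hs
    · have h3 := (Finset.sum_eq_zero_iff_of_nonneg (fun k _ =>
        mul_nonneg (Int.natCast_nonneg (S.n k)) (hs k))).mp h2 k (Finset.mem_univ k)
      have h4 := S.npos k
      rcases mul_eq_zero.mp h3 with h5 | h5
      · omega
      · exact h5
    · have h3 := (Finset.sum_eq_zero_iff_of_nonpos (fun k _ =>
        mul_nonpos_of_nonneg_of_nonpos (Int.natCast_nonneg (S.n k)) (hs k))).mp h2 k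
          (Finset.mem_univ k)
      have h4 := S.npos k
      rcases mul_eq_zero.mp h3 with h5 | h5
      · omega
      · exact h5
  · -- the coordinate is positive
    obtain ⟨b', hb'⟩ := exists_wt_s X i b
    have h1 : X.wt b' = C.wprod (i :: l) (C.dom (fun _ => 1)) := by
      rw [hb', hl, wprod_cons]
      rfl
    have h2 := hmax b' ⟨_, h1⟩
    rw [s_apply, hn b, hn b'] at hb'
    set c := (X.wt u - C.root (cst (n b))) i with hc
    have hc0 : 0 < c := by
      rw [hc, ← hn b, hl]
      exact h0
    have h3 : C.root (cst (n b')) = C.root (cst (n b) + Pi.single i c) := by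
      rw [root_add, root_single]
      have h4 : X.wt u - C.root (cst (n b')) =
          X.wt u - (C.root (cst (n b)) + c • C.al i) := by
        rw [hb']
        abel
      exact sub_right_inj.mp h4
    have h4 := root_inj h3
    have h5 : (∑ k, (n b' k : ℤ)) = ∑ k, (n b k : ℤ) + c := by
      have h6 : ∀ k, (n b' k : ℤ) = n b k + (Pi.single i c : C.I → ℤ) k := fun k => congrFun h4 k
      rw [Finset.sum_congr rfl fun k _ => h6 k, Finset.sum_add_distrib, Finset.sum_pi_single']
      simp
    have h6 : ((∑ k, n b' k : ℕ) : ℤ) ≤ ((∑ k, n b k : ℕ) : ℤ) := by exact_mod_cast h2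
    push_cast at h6
    omega

theorem rw_lin (l : List C.I) (n : C.I → ℤ) (k : C.I) :
    rw' l n k = ∑ j, n j * rw' l (Pi.single j 1) k := by
  have h : C.root (rw' l n) = C.root (fun k => ∑ j, n j * rw' l (Pi.single j 1) k) := by
    rw [root_rw']
    have h1 : C.root n = ∑ j, n j • C.al j := rfl
    rw [h1, map_sum]
    have h2 : ∀ j, C.wprod l (n j • C.al j) = ∑ k, (n j * rw' l (Pi.single j 1) k) • C.al k := by
      intro j
      rw [map_smul, ← root_single_one, wprod_root]
      unfold Cartan.root
      rw [Finset.smul_sum]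
      refine Finset.sum_congr rfl fun k _ => ?_
      rw [mul_smul]
    rw [Finset.sum_congr rfl fun j _ => h2 j, Finset.sum_comm]
    unfold Cartan.root
    refine Finset.sum_congr rfl fun k _ => ?_
    rw [Finset.sum_smul]
  exact congrFun (root_inj h) k

theorem rw_rev (l : List C.I) (n : C.I → ℤ) : rw' l.reverse (rw' l n) = n := by
  apply root_inj
  rw [root_rw', root_rw', wprod_inv_rev]

theorem rw_rev' (l : List C.I) (n : C.I → ℤ) : rw' l (rw' l.reverse n) = n := by
  have h := rw_rev l.reverse n
  rw [List.reverse_reverse] at h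
  exact h

/-- coordinates of the images of weights -/
theorem wprod_coord (S : Sym C) (l : List C.I) (i j : C.I) (h : C.wprod l (C.al i) = - C.al j) :
    S.n j = S.n i ∧ ∀ x, C.wprod l x j = - x i := by
  have h1 : rw' l (Pi.single i 1) = Pi.single j (-1) := by
    apply root_inj
    rw [root_rw', root_single_one, h, root_single, neg_smul, one_smul]
  have h2 : ∀ x, (S.n i : ℚ) * x i = - ((S.n j : ℚ) * C.wprod l x j) := by
    intro x
    have h3 := form_rw' (fun i => (S.n i : ℚ)) (symQ S) l (Pi.single i 1) x
    rw [h1, form_single, form_single] at h3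
    push_cast at h3
    linarith
  have h4 : (S.n j : ℚ) = S.n i := by
    have h5 := h2 (C.al i)
    rw [h, Pi.neg_apply] at h5
    unfold Cartan.al at h5
    rw [C.diag, C.diag] at h5
    push_cast at h5
    linarith
  have h5 : (0 : ℚ) < S.n i := by exact_mod_cast S.npos i
  refine ⟨by exact_mod_cast h4, fun x => ?_⟩
  have h6 := h2 x
  rw [h4] at h6
  have h7 : ((C.wprod l x j : ℤ) : ℚ) = ((- x i : ℤ) : ℚ) := by
    push_cast
    have h8 : (S.n i : ℚ) * ((C.wprod l x j : ℚ) + x i) = 0 := by linarith
    rcases mul_eq_zero.mp h8 with h9 | h9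
    · linarith
    · linarith
  exact_mod_cast h7

theorem al_inj {i j : C.I} (h : C.al i = C.al j) : i = j := by
  rw [← root_single_one, ← root_single_one] at h
  have h1 := congrFun (root_inj h) i
  rw [Pi.single_eq_same] at h1
  by_contra hne
  rw [Pi.single_eq_of_ne hne] at h1
  exact absurd h1 one_ne_zero

/-- an element of the Weyl group that permutes the coordinates of the weights is trivial -/
theorem perm_trivial (H : HasB C) (l : List C.I) (t : C.I → C.I) (ht : Function.Bijective t)
    (h : ∀ x i, C.wprod l x (t i) = x i) (x : C.Wt) : C.wprod l x = x := by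
  have key : ∀ lam : C.I → ℕ, C.wprod l (C.dom lam) = C.dom lam := by
    intro lam
    obtain ⟨t', ht1, ht2⟩ := Function.bijective_iff_has_inverse.mp ht
    have h1 : C.wprod l (C.dom lam) = C.dom (fun i => lam (t' i)) := by
      funext i
      have h2 := h (C.dom lam) (t' i)
      rw [ht2 i] at h2
      exact h2
    obtain ⟨n, hn⟩ := orbit_le H lam l
    obtain ⟨m, hm⟩ := orbit_le H (fun i => lam (t' i)) l.reverse
    rw [← h1, wprod_inv_rev, hn] at hm
    have h3 : C.root (cst n + cst m) = 0 := by
      rw [root_add]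
      have h4 : C.dom lam - (C.root (cst n) + C.root (cst m)) = C.dom lam - 0 := by
        rw [sub_zero]
        nth_rewrite 2 [hm]
        abel
      exact sub_right_inj.mp h4
    have h4 := root_indep _ h3
    have h5 : cst n = 0 := by
      funext i
      have h6 : (n i : ℤ) + m i = 0 := congrFun h4 i
      change (n i : ℤ) = 0
      omega
    rw [hn, h5, root_zero, sub_zero]
  obtain ⟨a, b, hab⟩ := wt_diff x
  rw [hab, map_sub, key, key]

/-- The longest element exists. -/
theorem exists_w0_of (C : Cartan) (H : HasB C)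
    (HF : ∀ (X : Crystal C) (u : X.B), Gen X u → Finite X.B) :
    ∃ (star : C.I → C.I) (w0 : C.Aut), w0 ∈ C.W ∧ (∀ i, star (star i) = i) ∧
      (∀ i, w0 (C.al i) = - C.al (star i)) ∧ (∀ (mu : C.Wt) i, w0 mu i = - mu (star i)) ∧
      (∀ i j, C.A (star i) (star j) = C.A i j) ∧ ∀ (S : Sym C) i, S.n (star i) = S.n i := by
  obtain ⟨S0⟩ := exists_sym C
  obtain ⟨l, hl⟩ := exists_opposite H HF
  -- signs of the images under the inverse
  have hK : ∀ i j, rw' l.reverse (Pi.single i 1) j ≤ 0 := by
    intro i
    rcases sign_root H l.reverse i with hs | hs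
    · exfalso
      have h1 := form_rw' (fun i => (S0.n i : ℚ)) (symQ S0) l.reverse (Pi.single i 1)
        (C.wprod l (C.dom (fun _ => 1)))
      rw [wprod_inv_rev, form_single, form_rho] at h1
      have h2 : 0 ≤ ∑ k, ((S0.n k * rw' l.reverse (Pi.single i 1) k : ℤ) : ℚ) := by
        apply Finset.sum_nonneg
        intro k _
        exact_mod_cast mul_nonneg (Int.natCast_nonneg (S0.n k)) (hs k)
      have h3 : ((C.wprod l (C.dom (fun _ => 1)) i : ℤ) : ℚ) < 0 := by exact_mod_cast hl i
      have h4 : (0 : ℚ) < S0.n i := by exact_mod_cast S0.npos i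
      have h5 := mul_neg_of_pos_of_neg h4 h3
      rw [h1] at h2
      push_cast at h2
      linarith
    · exact hs
  have hinv : ∀ i k, ∑ j, rw' l (Pi.single i 1) j * rw' l.reverse (Pi.single j 1) k =
      (Pi.single i 1 : C.I → ℤ) k := by
    intro i k
    rw [← rw_lin, rw_rev]
  have hM : ∀ i j, rw' l (Pi.single i 1) j ≤ 0 := by
    intro i
    rcases sign_root H l i with hs | hs
    · exfalso
      have h1 := hinv i i
      rw [Pi.single_eq_same] at h1
      have h2 : ∑ j, rw' l (Pi.single i 1) j * rw' l.reverse (Pi.single j 1) i ≤ 0 := by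
        apply Finset.sum_nonpos
        intro j _
        exact mul_nonpos_of_nonneg_of_nonpos (hs j) (hK j i)
      omega
    · exact hs
  have hstar : ∀ i, ∃ j, C.wprod l (C.al i) = - C.al j := by
    intro i
    obtain ⟨j, hj⟩ : ∃ j, rw' l (Pi.single i 1) j ≠ 0 := by
      by_contra hno
      push Not at hno
      exact rw_ne_zero l i (funext hno)
    refine ⟨j, ?_⟩
    have h1 : ∀ k, k ≠ i → rw' l.reverse (Pi.single j 1) k = 0 := by
      intro k hk
      have h2 := hinv i k
      rw [Pi.single_eq_of_ne hk] at h2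
      have h3 := (Finset.sum_eq_zero_iff_of_nonneg (fun j _ =>
        mul_nonneg_of_nonpos_of_nonpos (hM i j) (hK j k))).mp h2 j (Finset.mem_univ j)
      rcases mul_eq_zero.mp h3 with h5 | h5
      · exact absurd h5 hj
      · exact h5
    set c := rw' l.reverse (Pi.single j 1) i with hc
    have h2 : rw' l.reverse (Pi.single j 1) = Pi.single i c := by
      funext k
      by_cases hk : k = i
      · subst hk
        rw [Pi.single_eq_same]
      · rw [Pi.single_eq_of_ne hk, h1 k hk]
    have h3 := congrFun (rw_rev' l (Pi.single j 1)) j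
    rw [h2, rw_lin, Pi.single_eq_same, Finset.sum_eq_single i] at h3
    · rw [Pi.single_eq_same] at h3
      have h4 : c = -1 := by
        rcases Int.mul_eq_one_iff_eq_one_or_neg_one.mp h3 with h5 | h5
        · have := hM i j
          omega
        · exact h5.1
      have h5 : C.wprod l.reverse (C.al j) = - C.al i := by
        rw [← root_single_one, wprod_root, h2, h4, root_single, neg_smul, one_smul]
      have h6 := congrArg (C.wprod l) h5
      rw [map_neg] at h6
      have h7 := wprod_inv_rev l.reverse (C.al j)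
      rw [List.reverse_reverse] at h7
      rw [h7] at h6
      rw [h6, neg_neg]
    · intro k _ hk
      rw [Pi.single_eq_of_ne hk, zero_mul]
    · intro h
      exact absurd (Finset.mem_univ i) h
  choose star hst using hstar
  have hcoord : ∀ i x, C.wprod l x (star i) = - x i := fun i x =>
    (wprod_coord S0 l i (star i) (hst i)).2 x
  have hinj : Function.Injective star := by
    intro i i' h
    have h1 := hst i
    rw [h, ← hst i'] at h1
    exact al_inj ((C.wprod l).injective h1)
  have hbij : Function.Bijective star := Finite.injective_iff_bijective.mp hinj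
  have hss : ∀ i, star (star i) = i := by
    intro i
    have h1 := perm_trivial H (l ++ l) (fun i => star (star i)) (hbij.comp hbij) (by
      intro x i
      rw [wprod_append, LinearEquiv.mul_apply, hcoord, hcoord, neg_neg]) (C.al i)
    rw [wprod_append, LinearEquiv.mul_apply, hst, map_neg, hst, neg_neg] at h1
    exact al_inj h1
  refine ⟨star, C.wprod l, wprod_mem l, hss, hst, ?_, ?_, ?_⟩
  · intro mu i
    have h1 := hcoord (star i) mu
    rw [hss] at h1
    exact h1
  · intro i j
    have h1 := hcoord i (C.al j)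
    rw [hst] at h1
    exact neg_injective h1
  · intro S i
    exact (wprod_coord S l i (star i) (hst i)).1

end Pool.Agent.H94.KM
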