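import Pool.Agent.H94.KM.Stem

/-!
Root lattice of a simply laced Cartan matrix; roots are the vectors of norm 2.
-/

set_option autoImplicit false

open scoped Classical

namespace Pool.Agent.H94.KM

open Pool.Agent.H59.KY

/-- the weight of an element of the root lattice (coordinates with respect to the simple roots) -/
def rwt (Y : Cartan) (x : Y.I → ℤ) : Y.Wt := fun i => ∑ j, Y.A i j * x j

/-- pairing of a weight with an element of the (co)root lattice -/
def pr (Y : Cartan) (lam : Y.Wt) (x : Y.I → ℤ) : ℤ := ∑ i, lam i * x i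

/-- the `i`-th simple root as an element of the root lattice -/
noncomputable def sr (Y : Cartan) (i : Y.I) : Y.I → ℤ := Pi.single i 1

/-- roots: vectors of norm 2 -/
def IsRoot (Y : Cartan) (x : Y.I → ℤ) : Prop := pr Y (rwt Y x) x = 2

variable {Y : Cartan}

theorem A_symm (hY : SL Y) (i j : Y.I) : Y.A i j = Y.A j i := by
  by_cases h : i = j
  · rw [h]
  · rcases hY i j h with ⟨h1, h2⟩ | ⟨h1, h2⟩
    · rw [h1, h2]
    · rw [h1, h2]

theorem pr_rwt (x y : Y.I → ℤ) :
    pr Y (rwt Y x) y = ∑ i : Y.I, ∑ j : Y.I, Y.A i j * x j * y i := by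
  unfold pr rwt
  refine Finset.sum_congr rfl (fun i _ => ?_)
  rw [Finset.sum_mul]

theorem pr_pos (hY : SL Y) (x : Y.I → ℤ) (hx : x ≠ 0) : 0 < pr Y (rwt Y x) x := by
  obtain ⟨d, hd, hs, hp⟩ := Y.pos
  have hcast : ((pr Y (rwt Y x) x : ℤ) : ℚ) = ∑ c ∈ Finset.univ.image d, c⁻¹ *
      ∑ i, ∑ j, d i * Y.A i j * (if d i = c then (x i : ℚ) else 0) *
        (if d j = c then (x j : ℚ) else 0) := by
    rw [pr_rwt]
    push_cast
    simp only [Finset.mul_sum]
    conv_rhs => rw [Finset.sum_comm]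
    refine Finset.sum_congr rfl (fun i _ => ?_)
    conv_rhs => rw [Finset.sum_comm]
    refine Finset.sum_congr rfl (fun j _ => ?_)
    rw [Finset.sum_eq_single (d i)]
    · rw [if_pos rfl]
      have hdi := (hd i).ne'
      by_cases h : d j = d i
      · rw [if_pos h]
        field_simp
      · have h1 := hs i j
        rw [A_symm hY j i] at h1
        have h2 : (d i - d j) * (Y.A i j : ℚ) = 0 := by linear_combination h1
        have h3 : (Y.A i j : ℚ) = 0 := by
          rcases mul_eq_zero.mp h2 with h4 | h4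
          · exact absurd (sub_eq_zero.mp h4).symm h
          · exact h4
        rw [if_neg h, h3]
        ring
    · intro c _ hc
      rw [if_neg (fun h => hc h.symm)]
      ring
    · intro h
      exact absurd (Finset.mem_image_of_mem d (Finset.mem_univ i)) h
  have hnn : ∀ c ∈ Finset.univ.image d, 0 ≤ c⁻¹ *
      ∑ i, ∑ j, d i * Y.A i j * (if d i = c then (x i : ℚ) else 0) *
        (if d j = c then (x j : ℚ) else 0) := by
    intro c hc
    obtain ⟨i, -, rfl⟩ := Finset.mem_image.mp hc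
    apply mul_nonneg (inv_nonneg.mpr (hd i).le)
    by_cases h0 : (fun k => if d k = d i then (x k : ℚ) else 0) = 0
    · refine le_of_eq (Eq.symm ?_)
      refine Finset.sum_eq_zero (fun k _ => Finset.sum_eq_zero (fun j _ => ?_))
      have := congrFun h0 k
      simp only [Pi.zero_apply] at this
      rw [this]
      ring
    · exact (hp _ h0).le
  have hpos : (0 : ℚ) < ((pr Y (rwt Y x) x : ℤ) : ℚ) := by
    rw [hcast]
    obtain ⟨i0, hi0⟩ := Function.ne_iff.mp hx
    refine Finset.sum_pos' hnn ⟨d i0, Finset.mem_image_of_mem d (Finset.mem_univ i0), ?_⟩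
    apply mul_pos (inv_pos.mpr (hd i0))
    apply hp (fun k => if d k = d i0 then (x k : ℚ) else 0)
    intro h
    have := congrFun h i0
    simp only [if_true, Pi.zero_apply] at this
    exact hi0 (by exact_mod_cast this)
  exact_mod_cast hpos

theorem pr_symm (hY : SL Y) (x y : Y.I → ℤ) : pr Y (rwt Y x) y = pr Y (rwt Y y) x := by
  rw [pr_rwt, pr_rwt, Finset.sum_comm]
  refine Finset.sum_congr rfl (fun i _ => Finset.sum_congr rfl (fun j _ => ?_))
  rw [A_symm hY j i]
  ring

theorem rwt_add (x y : Y.I → ℤ) : rwt Y (x + y) = rwt Y x + rwt Y y := by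
  funext i
  simp only [rwt, Pi.add_apply, mul_add, Finset.sum_add_distrib]

theorem rwt_sub (x y : Y.I → ℤ) : rwt Y (x - y) = rwt Y x - rwt Y y := by
  funext i
  simp only [rwt, Pi.sub_apply, mul_sub, Finset.sum_sub_distrib]

theorem rwt_neg (x : Y.I → ℤ) : rwt Y (-x) = - rwt Y x := by
  funext i
  simp only [rwt, Pi.neg_apply, mul_neg, Finset.sum_neg_distrib]

theorem rwt_smul (k : ℤ) (x : Y.I → ℤ) : rwt Y (k • x) = k • rwt Y x := by
  funext i
  simp only [rwt, Pi.smul_apply, smul_eq_mul, Finset.mul_sum]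
  refine Finset.sum_congr rfl (fun j _ => ?_)
  ring

theorem rwt_sr (i : Y.I) : rwt Y (sr Y i) = Y.al i := by
  funext j
  unfold rwt sr Cartan.al
  rw [Finset.sum_eq_single i]
  · rw [Pi.single_eq_same, mul_one]
  · intro k _ hk
    rw [Pi.single_eq_of_ne hk, mul_zero]
  · intro h
    exact absurd (Finset.mem_univ i) h

theorem pr_sr (lam : Y.Wt) (i : Y.I) : pr Y lam (sr Y i) = lam i := by
  unfold pr sr
  rw [Finset.sum_eq_single i]
  · rw [Pi.single_eq_same, mul_one]
  · intro k _ hk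
    rw [Pi.single_eq_of_ne hk, mul_zero]
  · intro h
    exact absurd (Finset.mem_univ i) h

theorem pr_al (hY : SL Y) (i : Y.I) (x : Y.I → ℤ) : pr Y (Y.al i) x = rwt Y x i := by
  rw [← rwt_sr, pr_symm hY, pr_sr]

theorem pr_add_left (lam mu : Y.Wt) (x : Y.I → ℤ) : pr Y (lam + mu) x = pr Y lam x + pr Y mu x := by
  simp only [pr, Pi.add_apply, add_mul, Finset.sum_add_distrib]

theorem pr_sub_left (lam mu : Y.Wt) (x : Y.I → ℤ) : pr Y (lam - mu) x = pr Y lam x - pr Y mu x := by
  simp only [pr, Pi.sub_apply, sub_mul, Finset.sum_sub_distrib]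

theorem pr_neg_left (lam : Y.Wt) (x : Y.I → ℤ) : pr Y (-lam) x = - pr Y lam x := by
  simp only [pr, Pi.neg_apply, neg_mul, Finset.sum_neg_distrib]

theorem pr_smul_left (k : ℤ) (lam : Y.Wt) (x : Y.I → ℤ) : pr Y (k • lam) x = k * pr Y lam x := by
  simp only [pr, Pi.smul_apply, smul_eq_mul, Finset.mul_sum]
  refine Finset.sum_congr rfl (fun j _ => ?_)
  ring

theorem pr_add_right (lam : Y.Wt) (x y : Y.I → ℤ) : pr Y lam (x + y) = pr Y lam x + pr Y lam y := by
  simp only [pr, Pi.add_apply, mul_add, Finset.sum_add_distrib]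

theorem pr_sub_right (lam : Y.Wt) (x y : Y.I → ℤ) : pr Y lam (x - y) = pr Y lam x - pr Y lam y := by
  simp only [pr, Pi.sub_apply, mul_sub, Finset.sum_sub_distrib]

theorem pr_neg_right (lam : Y.Wt) (x : Y.I → ℤ) : pr Y lam (-x) = - pr Y lam x := by
  simp only [pr, Pi.neg_apply, mul_neg, Finset.sum_neg_distrib]

theorem pr_smul_right (lam : Y.Wt) (k : ℤ) (x : Y.I → ℤ) : pr Y lam (k • x) = k * pr Y lam x := by
  simp only [pr, Pi.smul_apply, smul_eq_mul, Finset.mul_sum]
  refine Finset.sum_congr rfl (fun j _ => ?_)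
  ring

theorem isRoot_sr (i : Y.I) : IsRoot Y (sr Y i) := by
  unfold IsRoot
  rw [pr_sr, rwt_sr]
  exact Y.diag i

theorem isRoot_neg {x : Y.I → ℤ} (hx : IsRoot Y x) : IsRoot Y (-x) := by
  unfold IsRoot at hx ⊢
  rw [rwt_neg, pr_neg_left, pr_neg_right, neg_neg, hx]

theorem norm_sub_smul (hY : SL Y) {x : Y.I → ℤ} (hx : IsRoot Y x) (i : Y.I) (k : ℤ) :
    pr Y (rwt Y (x - k • sr Y i)) (x - k • sr Y i) = 2 - 2 * k * rwt Y x i + 2 * k ^ 2 := by
  unfold IsRoot at hx
  have h2 : Y.al i i = 2 := Y.diag i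
  rw [rwt_sub, rwt_smul, rwt_sr, pr_sub_left, pr_smul_left, pr_sub_right, pr_sub_right,
    pr_smul_right, pr_smul_right, pr_sr, pr_sr, pr_al hY, hx, h2]
  ring

/-- reflection in a simple root -/
theorem isRoot_refl (hY : SL Y) {x : Y.I → ℤ} (hx : IsRoot Y x) (i : Y.I) :
    IsRoot Y (x - (rwt Y x i) • sr Y i) := by
  unfold IsRoot
  rw [norm_sub_smul hY hx]
  ring

/-- The pairing of a root with a simple root. -/
theorem root_pair (hY : SL Y) {x : Y.I → ℤ} (hx : IsRoot Y x) (i : Y.I) :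
    (x = sr Y i ∧ rwt Y x i = 2) ∨ (x = - sr Y i ∧ rwt Y x i = -2) ∨
      (-1 ≤ rwt Y x i ∧ rwt Y x i ≤ 1) := by
  have h2 : Y.al i i = 2 := Y.diag i
  by_cases h1 : x = sr Y i
  · left
    refine ⟨h1, ?_⟩
    rw [h1, rwt_sr, h2]
  · by_cases h3 : x = - sr Y i
    · right
      left
      refine ⟨h3, ?_⟩
      rw [h3, rwt_neg, rwt_sr, Pi.neg_apply, h2]
    · right
      right
      have h4 := norm_sub_smul hY hx i 1
      have h5 := norm_sub_smul hY hx i (-1)
      have h6 := pr_pos hY (x - (1 : ℤ) • sr Y i) (by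
        intro h
        rw [one_smul] at h
        exact h1 (sub_eq_zero.mp h))
      have h7 := pr_pos hY (x - (-1 : ℤ) • sr Y i) (by
        intro h
        apply h3
        rw [neg_smul, one_smul, sub_neg_eq_add] at h
        exact eq_neg_of_add_eq_zero_left h)
      constructor
      · linarith
      · linarith

theorem isRoot_add (hY : SL Y) {x : Y.I → ℤ} (hx : IsRoot Y x) (i : Y.I) (h : rwt Y x i = -1) :
    IsRoot Y (x + sr Y i) := by
  have h1 := isRoot_refl hY hx i
  rwa [h, neg_smul, one_smul, sub_neg_eq_add] at h1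

theorem isRoot_sub (hY : SL Y) {x : Y.I → ℤ} (hx : IsRoot Y x) (i : Y.I) (h : rwt Y x i = 1) :
    IsRoot Y (x - sr Y i) := by
  have h1 := isRoot_refl hY hx i
  rwa [h, one_smul] at h1

/-- positive part -/
def pp (x : Y.I → ℤ) : Y.I → ℤ := fun i => max (x i) 0

/-- negative part -/
def pm (x : Y.I → ℤ) : Y.I → ℤ := fun i => max (-(x i)) 0

theorem pp_sub_pm (x : Y.I → ℤ) : pp x - pm x = x := by
  funext i
  simp only [pp, pm, Pi.sub_apply]
  omega

theorem pr_pp_pm (x : Y.I → ℤ) : pr Y (rwt Y (pp x)) (pm x) ≤ 0 := by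
  rw [pr_rwt]
  apply Finset.sum_nonpos
  intro i _
  apply Finset.sum_nonpos
  intro j _
  have hp : ∀ k, 0 ≤ pp x k := fun k => le_max_right _ _
  have hm : ∀ k, 0 ≤ pm x k := fun k => le_max_right _ _
  by_cases h : i = j
  · subst h
    have h1 : pp x i * pm x i = 0 := by
      unfold pp pm
      rcases le_total (x i) 0 with h2 | h2
      · rw [max_eq_right h2, zero_mul]
      · rw [max_eq_right (show -(x i) ≤ 0 by omega), mul_zero]
    rw [mul_assoc, h1, mul_zero]
  · have h1 := Y.off i j h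
    rw [mul_assoc]
    exact mul_nonpos_of_nonpos_of_nonneg h1 (mul_nonneg (hp j) (hm i))

/-- a weight which is nonnegative on the simple coroots and in the root lattice is a nonnegative
combination of simple roots -/
theorem nonneg_of_rwt (hY : SL Y) (x : Y.I → ℤ) (h : ∀ i, 0 ≤ rwt Y x i) : ∀ i, 0 ≤ x i := by
  have hm : ∀ k, 0 ≤ pm x k := fun k => le_max_right _ _
  have h1 : pm x = 0 := by
    by_contra h0
    have h2 := pr_pos hY (pm x) h0
    have h3 := pr_pp_pm x
    have h4 : 0 ≤ pr Y (rwt Y x) (pm x) :=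
      Finset.sum_nonneg (fun i _ => mul_nonneg (h i) (hm i))
    have h5 : pr Y (rwt Y x) (pm x) = pr Y (rwt Y (pp x)) (pm x) - pr Y (rwt Y (pm x)) (pm x) := by
      rw [← pr_sub_left, ← rwt_sub, pp_sub_pm]
    linarith
  intro i
  have := congrFun h1 i
  simp only [pm, Pi.zero_apply] at this
  omega

theorem norm_even (hY : SL Y) (x : Y.I → ℤ) : Even (pr Y (rwt Y x) x) := by
  have h1 : ((pr Y (rwt Y x) x : ℤ) : ZMod 2) = 0 := by
    rw [pr_rwt]
    push_cast
    rw [← Finset.sum_product']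
    refine Finset.sum_involution (fun p _ => (p.2, p.1)) ?_ ?_ ?_ ?_
    · rintro ⟨i, j⟩ _
      dsimp only
      rw [A_symm hY j i]
      have h2 : (2 : ZMod 2) = 0 := rfl
      linear_combination ((Y.A i j : ZMod 2) * (x j : ZMod 2) * (x i : ZMod 2)) * h2
    · rintro ⟨i, j⟩ _ hne heq
      have h3 : j = i := congrArg Prod.fst heq
      subst h3
      apply hne
      dsimp only
      rw [Y.diag]
      have h2 : ((2 : ℤ) : ZMod 2) = 0 := rfl
      rw [h2]
      ring
    · intro p _
      exact Finset.mem_product.mpr ⟨Finset.mem_univ _, Finset.mem_univ _⟩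
    · intro p _
      rfl
  exact (ZMod.intCast_eq_zero_iff_even).mp h1

/-- a root is positive or negative -/
theorem root_sign (hY : SL Y) {x : Y.I → ℤ} (hx : IsRoot Y x) :
    (∀ i, 0 ≤ x i) ∨ (∀ i, x i ≤ 0) := by
  by_cases h1 : pm x = 0
  · left
    intro i
    have := congrFun h1 i
    simp only [pm, Pi.zero_apply] at this
    omega
  · by_cases h2 : pp x = 0
    · right
      intro i
      have := congrFun h2 i
      simp only [pp, Pi.zero_apply] at this
      omega
    · exfalso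
      have h3 := pr_pos hY _ h1
      have h4 := pr_pos hY _ h2
      obtain ⟨a, ha⟩ := norm_even hY (pm x)
      obtain ⟨b, hb⟩ := norm_even hY (pp x)
      have h5 := pr_pp_pm x
      have h6 : pr Y (rwt Y x) x = pr Y (rwt Y (pp x)) (pp x) - 2 * pr Y (rwt Y (pp x)) (pm x)
          + pr Y (rwt Y (pm x)) (pm x) := by
        have h7 := pr_symm hY (pm x) (pp x)
        conv_lhs => rw [← pp_sub_pm x, rwt_sub, pr_sub_left, pr_sub_right, pr_sub_right, h7]
        ring
      unfold IsRoot at hx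
      rw [hx] at h6
      omega

/-- a positive multiple of every weight is in the root lattice -/
theorem exists_rwt (hY : SL Y) : ∃ N : ℕ, 0 < N ∧ ∀ lam : Y.Wt, ∃ x : Y.I → ℤ,
    rwt Y x = (N : ℤ) • lam := by
  have hrwt : ∀ x : Y.I → ℤ, rwt Y x = Matrix.mulVec (Matrix.of Y.A) x := by
    intro x
    funext i
    rfl
  have hdet : (Matrix.of Y.A).det ≠ 0 := by
    intro h
    obtain ⟨v, hv, h1⟩ := Matrix.exists_mulVec_eq_zero_iff.mpr h
    have h2 := pr_pos hY v hv
    rw [hrwt, h1] at h2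
    simp only [pr, Pi.zero_apply, zero_mul, Finset.sum_const_zero] at h2
    exact lt_irrefl _ h2
  refine ⟨(Matrix.of Y.A).det.natAbs ^ 2, pow_pos (Int.natAbs_pos.mpr hdet) 2, ?_⟩
  intro lam
  refine ⟨(Matrix.of Y.A).det • Matrix.mulVec (Matrix.of Y.A).adjugate lam, ?_⟩
  rw [hrwt, Matrix.mulVec_smul, Matrix.mulVec_mulVec, Matrix.mul_adjugate, Matrix.smul_mulVec,
    Matrix.one_mulVec, smul_smul]
  congr 1
  push_cast
  rw [sq_abs]
  ring

end Pool.Agent.H94.KM
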