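import Pool.Agent.H94.KM.Tools
import Pool.Agent.H94.KM.Roots

/-!
The crystal of all weights whose pairings with the roots are -1, 0 or 1.
-/

set_option autoImplicit false

open scoped Classical

namespace Pool.Agent.H94.KM

open Pool.Agent.H59.KY

variable {Y : Cartan}

/-- weights whose pairings with the roots are -1, 0 or 1 -/
def IsMic (Y : Cartan) (x : Y.Wt) : Prop := ∀ b : Y.I → ℤ, IsRoot Y b → pr Y x b ≤ 1

theorem isMic_neg {x : Y.Wt} (hx : IsMic Y x) : IsMic Y (-x) := by
  intro b hb
  have h1 := hx (-b) (isRoot_neg hb)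
  rw [pr_neg_right] at h1
  rw [pr_neg_left]
  exact h1

theorem mic_val {x : Y.Wt} (hx : IsMic Y x) (i : Y.I) : x i = -1 ∨ x i = 0 ∨ x i = 1 := by
  have h1 := hx (sr Y i) (isRoot_sr i)
  have h2 := hx (-sr Y i) (isRoot_neg (isRoot_sr i))
  rw [pr_sr] at h1
  rw [pr_neg_right, pr_sr] at h2
  omega

theorem mic_add (hY : SL Y) {x : Y.Wt} (hx : IsMic Y x) (i : Y.I) (h : x i = -1) :
    IsMic Y (x + Y.al i) := by
  intro b hb
  have h1 := hx _ (isRoot_refl hY hb i)
  rw [pr_sub_right, pr_smul_right, pr_sr, h] at h1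
  rw [pr_add_left, pr_al hY]
  linarith

theorem mic_sub (hY : SL Y) {x : Y.Wt} (hx : IsMic Y x) (i : Y.I) (h : x i = 1) :
    IsMic Y (x - Y.al i) := by
  have h1 : (-x) i = -1 := by rw [Pi.neg_apply, h]
  have h2 := isMic_neg (mic_add hY (isMic_neg hx) i h1)
  have h3 : -(-x + Y.al i) = x - Y.al i := by abel
  rw [h3] at h2
  exact h2

theorem al_self (i : Y.I) : Y.al i i = 2 := Y.diag i

/-- The crystal of the weights whose pairings with the roots are -1, 0 or 1. -/
noncomputable def mic (hY : SL Y) : Crystal Y where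
  B := {x : Y.Wt // IsMic Y x}
  wt := fun x => x.1
  e := fun i x => if h : x.1 i = -1 then some ⟨x.1 + Y.al i, mic_add hY x.2 i h⟩ else none
  f := fun i x => if h : x.1 i = 1 then some ⟨x.1 - Y.al i, mic_sub hY x.2 i h⟩ else none
  eps := fun i x => if x.1 i = -1 then 1 else 0
  phi := fun i x => if x.1 i = 1 then 1 else 0
  f_iff := by
    rintro i ⟨x, hx⟩ ⟨y, hy⟩
    dsimp only
    constructor
    · intro h
      split_ifs at h with h1
      have h2 : x - Y.al i = y := congrArg Subtype.val (Option.some.inj h)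
      have h3 : y i = -1 := by
        rw [← h2, Pi.sub_apply, h1, al_self]
        norm_num
      rw [dif_pos h3]
      refine congrArg some (Subtype.ext ?_)
      change y + Y.al i = x
      rw [← h2]
      abel
    · intro h
      split_ifs at h with h1
      have h2 : y + Y.al i = x := congrArg Subtype.val (Option.some.inj h)
      have h3 : x i = 1 := by
        rw [← h2, Pi.add_apply, h1, al_self]
        norm_num
      rw [dif_pos h3]
      refine congrArg some (Subtype.ext ?_)
      change x - Y.al i = y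
      rw [← h2]
      abel
  wt_e := by
    rintro i ⟨x, hx⟩ ⟨y, hy⟩ h
    dsimp only at h ⊢
    split_ifs at h with h1
    exact (congrArg Subtype.val (Option.some.inj h)).symm
  eps_none := by
    rintro i ⟨x, hx⟩ h
    dsimp only at h ⊢
    split_ifs at h with h1
    rw [if_neg h1]
  eps_some := by
    rintro i ⟨x, hx⟩ ⟨y, hy⟩ h
    dsimp only at h ⊢
    split_ifs at h with h1
    have h2 : x + Y.al i = y := congrArg Subtype.val (Option.some.inj h)
    have h3 : y i = 1 := by
      rw [← h2, Pi.add_apply, h1, al_self]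
      norm_num
    rw [if_pos h1, if_neg (by rw [h3]; norm_num)]
  phi_none := by
    rintro i ⟨x, hx⟩ h
    dsimp only at h ⊢
    split_ifs at h with h1
    rw [if_neg h1]
  phi_some := by
    rintro i ⟨x, hx⟩ ⟨y, hy⟩ h
    dsimp only at h ⊢
    split_ifs at h with h1
    have h2 : x - Y.al i = y := congrArg Subtype.val (Option.some.inj h)
    have h3 : y i = -1 := by
      rw [← h2, Pi.sub_apply, h1, al_self]
      norm_num
    rw [if_pos h1, if_neg (by rw [h3]; norm_num)]
  phi_eps := by
    rintro i ⟨x, hx⟩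
    dsimp only
    have h := mic_val hx i
    split_ifs <;> push_cast <;> omega

theorem mic_e_iff (hY : SL Y) (i : Y.I) (x y : (mic hY).B) :
    (mic hY).e i x = some y ↔ x.1 i = -1 ∧ y.1 = x.1 + Y.al i := by
  obtain ⟨x, hx⟩ := x
  obtain ⟨y, hy⟩ := y
  change (if h : x i = -1 then some (⟨x + Y.al i, mic_add hY hx i h⟩ : {x : Y.Wt // IsMic Y x})
    else none) = some ⟨y, hy⟩ ↔ x i = -1 ∧ y = x + Y.al i
  constructor
  · intro h
    split_ifs at h with h1
    exact ⟨h1, (congrArg Subtype.val (Option.some.inj h)).symm⟩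
  · rintro ⟨h1, h2⟩
    rw [dif_pos h1]
    exact congrArg some (Subtype.ext h2.symm)

theorem al_ne (hY : SL Y) {i j : Y.I} (hij : i ≠ j) : Y.al i j = 0 ∨ Y.al i j = -1 := by
  change Y.A j i = 0 ∨ Y.A j i = -1
  rcases hY i j hij with ⟨_, h⟩ | ⟨_, h⟩
  · exact Or.inl h
  · exact Or.inr h

theorem mic_eps (hY : SL Y) (i : Y.I) (x : (mic hY).B) :
    ((mic hY).eps i x : ℤ) = max (-(x.1 i)) 0 := by
  obtain ⟨x, hx⟩ := x
  change (((if x i = -1 then 1 else 0 : ℕ)) : ℤ) = max (-(x i)) 0
  have h := mic_val hx i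
  split_ifs <;> push_cast <;> omega

theorem mic_phi (hY : SL Y) (i : Y.I) (x : (mic hY).B) :
    ((mic hY).phi i x : ℤ) = max (x.1 i) 0 := by
  obtain ⟨x, hx⟩ := x
  change (((if x i = 1 then 1 else 0 : ℕ)) : ℤ) = max (x i) 0
  have h := mic_val hx i
  split_ifs <;> push_cast <;> omega

theorem mic_stE (hY : SL Y) : StE (mic hY) where
  s1 := by
    intro i j x x' hij h
    obtain ⟨h1, h2⟩ := (mic_e_iff hY i x x').mp h
    have h3 : x'.1 j = x.1 j + Y.al i j := by rw [h2, Pi.add_apply]
    have a1 := mic_eps hY j x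
    have a2 := mic_eps hY j x'
    have a3 := mic_phi hY j x
    have a4 := mic_phi hY j x'
    rw [h3] at a2 a4
    rcases al_ne hY hij with k | k <;> rw [k] at a2 a4 <;> constructor <;> omega
  s5 := by
    intro i j x a b hij ha hb _
    obtain ⟨h1, h2⟩ := (mic_e_iff hY i x a).mp ha
    obtain ⟨h3, h4⟩ := (mic_e_iff hY j x b).mp hb
    have h5 : a.1 j = x.1 j + Y.al i j := by rw [h2, Pi.add_apply]
    have h6 := mic_val a.2 j
    have h7 : Y.al i j = 0 := by
      rcases al_ne hY hij with k | k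
      · exact k
      · rw [h5, h3, k] at h6
        omega
    have h8 : Y.al j i = 0 := Y.zero j i h7
    have h9 : a.1 j = -1 := by rw [h5, h3, h7]; norm_num
    have h10 : b.1 i = -1 := by rw [h4, Pi.add_apply, h1, h8]; norm_num
    refine ⟨⟨a.1 + Y.al j, mic_add hY a.2 j h9⟩, ?_, ?_, ?_⟩
    · exact (mic_e_iff hY j a _).mpr ⟨h9, rfl⟩
    · refine (mic_e_iff hY i b _).mpr ⟨h10, ?_⟩
      change a.1 + Y.al j = b.1 + Y.al i
      rw [h2, h4]
      abel
    · have a1 := mic_phi hY i a
      have a2 := mic_phi hY i ⟨a.1 + Y.al j, mic_add hY a.2 j h9⟩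
      have a3 : (a.1 + Y.al j) i = a.1 i := by rw [Pi.add_apply, h8, add_zero]
      change (_ : ℤ) = max ((a.1 + Y.al j) i) 0 at a2
      rw [a3, ← a1] at a2
      exact_mod_cast a2
  s6 := by
    intro i j x a b hij ha hb h _
    obtain ⟨h3, h4⟩ := (mic_e_iff hY j x b).mp hb
    have a1 := mic_eps hY j x
    have a2 := mic_eps hY j a
    have a3 := mic_val a.2 j
    rw [h3] at a1
    exfalso
    omega

/-- the dual of the crystal is isomorphic to it by `x ↦ -x` -/
noncomputable def micDual (hY : SL Y) : Mor (dual (mic hY)) (mic hY) where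
  map := fun x => ⟨-x.1, isMic_neg x.2⟩
  map_e := by
    rintro i ⟨x, hx⟩
    change (if h : (-x) i = -1 then some (⟨-x + Y.al i, mic_add hY (isMic_neg hx) i h⟩ :
        {x : Y.Wt // IsMic Y x}) else none) =
      (if h : x i = 1 then some (⟨x - Y.al i, mic_sub hY hx i h⟩ : {x : Y.Wt // IsMic Y x})
        else none).map (fun x => (⟨-x.1, isMic_neg x.2⟩ : {x : Y.Wt // IsMic Y x}))
    by_cases h : x i = 1
    · rw [dif_pos (by rw [Pi.neg_apply, h]), dif_pos h, Option.map_some]
      refine congrArg some (Subtype.ext ?_)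
      change -x + Y.al i = -(x - Y.al i)
      abel
    · rw [dif_neg (by rw [Pi.neg_apply]; omega), dif_neg h, Option.map_none]
  map_f := by
    rintro i ⟨x, hx⟩
    change (if h : (-x) i = 1 then some (⟨-x - Y.al i, mic_sub hY (isMic_neg hx) i h⟩ :
        {x : Y.Wt // IsMic Y x}) else none) =
      (if h : x i = -1 then some (⟨x + Y.al i, mic_add hY hx i h⟩ : {x : Y.Wt // IsMic Y x})
        else none).map (fun x => (⟨-x.1, isMic_neg x.2⟩ : {x : Y.Wt // IsMic Y x}))
    by_cases h : x i = -1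
    · rw [dif_pos (by rw [Pi.neg_apply, h]; norm_num), dif_pos h, Option.map_some]
      refine congrArg some (Subtype.ext ?_)
      change -x - Y.al i = -(x + Y.al i)
      abel
    · rw [dif_neg (by rw [Pi.neg_apply]; omega), dif_neg h, Option.map_none]
  map_wt := fun _ => rfl

theorem micDual_inj (hY : SL Y) : Function.Injective (micDual hY).map := by
  intro x y h
  have h1 : -x.1 = -y.1 := congrArg Subtype.val h
  exact Subtype.ext (neg_injective h1)

theorem mic_st (hY : SL Y) : St (mic hY) :=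
  ⟨mic_stE hY, StE.of_mor (micDual hY) (micDual_inj hY) (mic_stE hY)⟩

/-- the existence of the crystal, described by its carrier and weights (the rest is forced) -/
theorem exists_mic (hY : SL Y) : ∃ X : Crystal Y, St X ∧ ∀ x : Y.Wt, IsMic Y x →
    ∃ b : X.B, X.wt b = x ∧ ∀ i, X.eps i b = (- x i).toNat := by
  refine ⟨mic hY, mic_st hY, fun x hx => ⟨⟨x, hx⟩, rfl, fun i => ?_⟩⟩
  have h1 := mic_eps hY i ⟨x, hx⟩
  change (_ : ℤ) = max (-(x i)) 0 at h1
  omega

end Pool.Agent.H94.KM
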