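import Pool.Agent.H94.KM.Stem

/-!
Basic tools: morphisms preserve string lengths; transfer of the axioms; subcrystals.
-/

set_option autoImplicit false

namespace Pool.Agent.H94.KM

open Pool.Agent.H59.KY

variable {Y : Cartan}

theorem e_pos (X : Crystal Y) (i : Y.I) (b : X.B) (h : 0 < X.eps i b) : ∃ c, X.e i b = some c := by
  rcases h1 : X.e i b with _ | c
  · rw [X.eps_none i b h1] at h
    exact absurd h (lt_irrefl 0)
  · exact ⟨c, rfl⟩

theorem f_pos (X : Crystal Y) (i : Y.I) (b : X.B) (h : 0 < X.phi i b) : ∃ c, X.f i b = some c := by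
  rcases h1 : X.f i b with _ | c
  · rw [X.phi_none i b h1] at h
    exact absurd h (lt_irrefl 0)
  · exact ⟨c, rfl⟩

theorem phi_e (X : Crystal Y) (i : Y.I) (b c : X.B) (h : X.e i b = some c) :
    X.phi i c = X.phi i b + 1 := X.phi_some i c b ((X.f_iff i c b).mpr h)

theorem eps_f (X : Crystal Y) (i : Y.I) (b c : X.B) (h : X.f i b = some c) :
    X.eps i c = X.eps i b + 1 := X.eps_some i c b ((X.f_iff i b c).mp h)

theorem mor_eps {X X' : Crystal Y} (g : Mor X X') (i : Y.I) (b : X.B) :
    X'.eps i (g.map b) = X.eps i b := by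
  generalize h : X.eps i b = n
  induction n generalizing b with
  | zero =>
    apply X'.eps_none
    rw [g.map_e]
    rcases h1 : X.e i b with _ | c
    · rfl
    · have := X.eps_some i b c h1
      omega
  | succ n ih =>
    obtain ⟨c, hc⟩ := e_pos X i b (by omega)
    have h1 := X.eps_some i b c hc
    have h2 := ih c (by omega)
    have h3 : X'.e i (g.map b) = some (g.map c) := by rw [g.map_e, hc]; rfl
    rw [X'.eps_some i _ _ h3, h2]

theorem mor_phi {X X' : Crystal Y} (g : Mor X X') (i : Y.I) (b : X.B) :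
    X'.phi i (g.map b) = X.phi i b := by
  have h1 := X'.phi_eps i (g.map b)
  have h2 := X.phi_eps i b
  rw [mor_eps, g.map_wt] at h1
  omega

theorem mor_e_some {X X' : Crystal Y} (g : Mor X X') {i : Y.I} {b c : X.B} (h : X.e i b = some c) :
    X'.e i (g.map b) = some (g.map c) := by
  rw [g.map_e, h]
  rfl

theorem mor_f_some {X X' : Crystal Y} (g : Mor X X') {i : Y.I} {b c : X.B} (h : X.f i b = some c) :
    X'.f i (g.map b) = some (g.map c) := by
  rw [g.map_f, h]
  rfl

theorem mor_e_some' {X X' : Crystal Y} (g : Mor X X') {i : Y.I} {b : X.B} {c' : X'.B}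
    (h : X'.e i (g.map b) = some c') : ∃ c, X.e i b = some c ∧ g.map c = c' := by
  rw [g.map_e, Option.map_eq_some_iff] at h
  exact h

theorem mor_f_some' {X X' : Crystal Y} (g : Mor X X') {i : Y.I} {b : X.B} {c' : X'.B}
    (h : X'.f i (g.map b) = some c') : ∃ c, X.f i b = some c ∧ g.map c = c' := by
  rw [g.map_f, Option.map_eq_some_iff] at h
  exact h

/-- the dual morphism -/
def dmor {X X' : Crystal Y} (g : Mor X X') : Mor (dual X) (dual X') where
  map := g.map
  map_e := g.map_f
  map_f := g.map_e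
  map_wt := fun b => congrArg Neg.neg (g.map_wt b)

/-- The axioms are inherited by crystals that embed. -/
theorem StE.of_mor {X X' : Crystal Y} (g : Mor X X') (hg : Function.Injective g.map)
    (h : StE X') : StE X where
  s1 := by
    intro i j x x' hij hx
    have := h.s1 i j _ _ hij (mor_e_some g hx)
    rw [mor_eps, mor_eps, mor_phi, mor_phi] at this
    exact this
  s5 := by
    intro i j x a b hij ha hb h1
    obtain ⟨w, hw1, hw2, hw3⟩ := h.s5 i j _ _ _ hij (mor_e_some g ha) (mor_e_some g hb)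
      (by rw [mor_eps, mor_eps, h1])
    obtain ⟨v, hv, rfl⟩ := mor_e_some' g hw1
    obtain ⟨v', hv', hvv⟩ := mor_e_some' g hw2
    have := hg hvv
    subst this
    rw [mor_phi, mor_phi] at hw3
    exact ⟨v', hv, hv', hw3⟩
  s6 := by
    intro i j x a b hij ha hb h1 h2
    obtain ⟨p, q, r, s, w, k1, k2, k3, k4, k5, k6, k7, k8⟩ := h.s6 i j _ _ _ hij (mor_e_some g ha)
      (mor_e_some g hb) (by rw [mor_eps, mor_eps, h1]) (by rw [mor_eps, mor_eps, h2])
    obtain ⟨p, m1, rfl⟩ := mor_e_some' g k1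
    obtain ⟨q, m2, rfl⟩ := mor_e_some' g k2
    obtain ⟨w1, m3, rfl⟩ := mor_e_some' g k3
    obtain ⟨r, m4, rfl⟩ := mor_e_some' g k4
    obtain ⟨s, m5, rfl⟩ := mor_e_some' g k5
    obtain ⟨w2, m6, m7⟩ := mor_e_some' g k6
    have := hg m7
    subst this
    rw [mor_phi, mor_phi] at k7 k8
    exact ⟨p, q, r, s, w2, m1, m2, m3, m4, m5, m6, k7, k8⟩

theorem St.of_mor {X X' : Crystal Y} (g : Mor X X') (hg : Function.Injective g.map)
    (h : St X') : St X :=
  ⟨StE.of_mor g hg h.1, StE.of_mor (dmor g) hg h.2⟩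

theorem dual_dual (X : Crystal Y) : dual (dual X) = X := by
  obtain ⟨B, wt, e, f, eps, phi, h1, h2, h3, h4, h5, h6, h7⟩ := X
  simp only [dual, neg_neg]

theorem St.dual {X : Crystal Y} (h : St X) : St (dual X) :=
  ⟨h.2, by rw [dual_dual]; exact h.1⟩

/-- the subcrystal of the elements with a property stable under all the operators -/
noncomputable def sub (X : Crystal Y) (P : X.B → Prop)
    (he : ∀ i b c, P b → X.e i b = some c → P c) (hf : ∀ i b c, P b → X.f i b = some c → P c) :
    Crystal Y where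
  B := {b : X.B // P b}
  wt := fun b => X.wt b.1
  e := fun i b => (X.e i b.1).pmap (fun c hc => ⟨c, hc⟩)
    (fun c hc => he i b.1 c b.2 (by simpa using hc))
  f := fun i b => (X.f i b.1).pmap (fun c hc => ⟨c, hc⟩)
    (fun c hc => hf i b.1 c b.2 (by simpa using hc))
  eps := fun i b => X.eps i b.1
  phi := fun i b => X.phi i b.1
  f_iff := by
    rintro i ⟨b, hb⟩ ⟨b', hb'⟩
    simp only [Option.pmap_eq_some_iff, Subtype.mk.injEq, exists_and_left]
    constructor
    · rintro ⟨c, h1, _, rfl⟩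
      exact ⟨b, (X.f_iff i _ _).mp h1, hb, rfl⟩
    · rintro ⟨c, h1, _, rfl⟩
      exact ⟨b', (X.f_iff i _ _).mpr h1, hb', rfl⟩
  wt_e := by
    rintro i ⟨b, hb⟩ ⟨b', hb'⟩ h
    simp only [Option.pmap_eq_some_iff, Subtype.mk.injEq, exists_and_left] at h
    obtain ⟨c, h1, _, rfl⟩ := h
    exact X.wt_e i _ _ h1
  eps_none := by
    rintro i ⟨b, hb⟩ h
    simp only [Option.pmap_eq_none_iff] at h
    exact X.eps_none i _ h
  eps_some := by
    rintro i ⟨b, hb⟩ ⟨b', hb'⟩ h
    simp only [Option.pmap_eq_some_iff, Subtype.mk.injEq, exists_and_left] at h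
    obtain ⟨c, h1, _, rfl⟩ := h
    exact X.eps_some i _ _ h1
  phi_none := by
    rintro i ⟨b, hb⟩ h
    simp only [Option.pmap_eq_none_iff] at h
    exact X.phi_none i _ h
  phi_some := by
    rintro i ⟨b, hb⟩ ⟨b', hb'⟩ h
    simp only [Option.pmap_eq_some_iff, Subtype.mk.injEq, exists_and_left] at h
    obtain ⟨c, h1, _, rfl⟩ := h
    exact X.phi_some i _ _ h1
  phi_eps := fun i b => X.phi_eps i b.1

end Pool.Agent.H94.KM
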